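import Pool.Agent.Q150.SZ.Rel

/-!
# Project SY (helper51): sections of superelliptic twists over `ℚ`; the relation between two elements of the same type

The statement `S_REL` of project SZ, proved by helper150 in `Pool/Agent/Q150/SZ/Rel.lean`, without the hypothesis that
the degree of `f` is odd (it is used there only for `∏ r, Cf f D r i j = 1`, which is true in general).
-/

set_option autoImplicit false

namespace Pool.Agent.Q51.SY

open Polynomial NumberField IsDedekindDomain Finset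
open Pool.Agent.Q51.SZ
open Pool.Agent.Y157.PS (Dec Ine IsU non_add non_mul non_sub non_mem isU_one IsU.not_nonunit IsU.div)
open Pool.Agent.Q51.EL (Abv Setup)
open Pool.Agent.Q51.SE (Parq)
open Pool.Agent.Q51.ZC (VecP Rel dg)
open Pool.Agent.Q124.SZ (Vl)
open Pool.Agent.Q277.SZ (Wf_eqv Cf_eqv)
open Pool.Agent.Q150.SZ (sub_ne Wf_ne Cf_ne Wf_scale prod_Cf_scale prod_eqv Vl_unique mul_close pow_close
  close_ne alg1 alg2)

section alg

variable {f : ℤ[X]} {A : Type} [Field A]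

open Classical in
theorem prod_Wf {D : ℤ} (i : Rt f A) : ∏ r, Wf f D r i =
    (-1) ^ (Fintype.card (Rt f A) - 1) * ((D : A) / (f.leadingCoeff : A)) := by
  have h1 : ∏ r, Wf f D r i = Wf f D i i * ∏ r ∈ univ.erase i, Wf f D r i :=
    (Finset.mul_prod_erase univ _ (mem_univ i)).symm
  have h2 : ∏ r ∈ univ.erase i, Wf f D r i =
      (-1) ^ (Fintype.card (Rt f A) - 1) * ∏ r ∈ univ.erase i, (i.1 - r.1) := by
    have h3 : ∀ r ∈ univ.erase i, Wf f D r i = (-1) * (i.1 - r.1) := by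
      intro r hr
      unfold Wf
      rw [if_neg (Finset.ne_of_mem_erase hr).symm]
      ring
    rw [prod_congr rfl h3, prod_mul_distrib, prod_const, card_erase_of_mem (mem_univ i), card_univ]
  have h3 : ∏ r ∈ univ.erase i, (i.1 - r.1) ≠ 0 :=
    Finset.prod_ne_zero_iff.2 fun k hk => sub_ne (Finset.ne_of_mem_erase hk).symm
  rw [h1, h2]
  unfold Wf
  rw [if_pos rfl]
  by_cases hlc : (f.leadingCoeff : A) = 0
  · rw [hlc]
    simp
  · field_simp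

theorem prod_Cf {D : ℤ} (hD : (D : A) ≠ 0) (hlc : (f.leadingCoeff : A) ≠ 0) (i j : Rt f A) :
    ∏ r, Cf f D r i j = 1 := by
  unfold Cf
  have h0 : ((-1 : A) ^ (Fintype.card (Rt f A) - 1)) ≠ 0 :=
    pow_ne_zero _ (neg_ne_zero.mpr one_ne_zero)
  rw [prod_div_distrib, prod_Wf, prod_Wf, div_self (mul_ne_zero h0 (div_ne_zero hD hlc))]

/-- the powers with exponents `m r + e + q n r` -/
theorem prod_split {D : ℤ} (hD : (D : A) ≠ 0) (hlc : (f.leadingCoeff : A) ≠ 0)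
    (i j : Rt f A) (q : ℕ) (e : ℤ) (m n μ : Rt f A → ℤ)
    (h : ∀ r, μ r = m r + e + q * n r) :
    ∏ r, Cf f D r i j ^ μ r = (∏ r, Cf f D r i j ^ m r) * (∏ r, Cf f D r i j ^ n r) ^ q := by
  have h1 : ∀ r : Rt f A, Cf f D r i j ^ μ r =
      Cf f D r i j ^ m r * Cf f D r i j ^ e * (Cf f D r i j ^ n r) ^ q := by
    intro r
    have h2 := Cf_ne hD hlc r i j
    rw [h r, zpow_add₀ h2, zpow_add₀ h2, mul_comm (q : ℤ) (n r), zpow_mul, zpow_natCast]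
  rw [prod_congr rfl fun r _ => h1 r, prod_mul_distrib, prod_mul_distrib, prod_pow, prod_zpow,
    prod_Cf hD hlc, one_zpow, mul_one]

end alg

/-- The statement `S_REL` of project SZ without the hypothesis on the degree. -/
def S_REL0 : Prop := ∀ (f : ℤ[X]) (L : Type) [Field L] [NumberField L] (θ : L), Setup f L θ →
  ∃ B1 : ℕ, B1 ≠ 0 ∧ ∀ (q B : ℕ), B1 ∣ B → q.Prime → q ∣ f.natDegree →
  ∀ (A : Type) [Field A] [Algebra ℚ A] [IsAlgClosure ℚ A], Gd A f q B →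
  ∀ J : Rt f A → (L →ₐ[ℚ] A), (∀ i, J i θ = i.1) → ∀ (l : ℕ) (V : ValuationSubring A),
  At A B l V → ∀ π : Rt f A → HeightOneSpectrum (𝓞 L), Plc J l V π →
  ∀ j0 : Rt f A, (∀ σ : A ≃ₐ[ℚ] A, Dec V σ → σ • j0 = j0) →
  ∀ D D' : ℤ, (l : ℤ) ∣ D → ¬ (l : ℤ) ^ 2 ∣ D → (l : ℤ) ∣ D' → ¬ (l : ℤ) ^ 2 ∣ D' →
  ∀ (μ μ' : Rt f A → ℤ) (E : Rt f A → Rt f A → A),
  (∀ σ : A ≃ₐ[ℚ] A, Dec V σ → ∀ i : Rt f A, μ (σ • i) = μ i ∧ μ' (σ • i) = μ' i) →
  (∀ i j, E i j ≠ 0) →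
  (∀ σ : A ≃ₐ[ℚ] A, Dec V σ → ∀ i j, σ (E i j) = E (σ • i) (σ • j)) →
  ∀ δ δ' : L, δ ≠ 0 → δ' ≠ 0 →
  (∀ i, PV q V l (J i δ) (μ i)) → (∀ i, PV q V l (J i δ') (μ' i)) →
  (∀ i j, J i δ' / J j δ' * (∏ r, Cf f D r i j ^ μ r) * E i j ^ q =
    J i δ / J j δ * ∏ r, Cf f D' r i j ^ μ' r) →
  ∀ M : HeightOneSpectrum (𝓞 L) → ℤ, (∃ e : ℤ, VecP q l δ (fun v => M v + e)) →
  (∃ e : ℤ, VecP q l δ' (fun v => M v + e)) → Rel q l M δ δ'

theorem rel (h : S_APX) : S_REL0 := by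
  intro f L _ _ θ hset
  obtain ⟨B1, hB1, hapx⟩ := h f L θ hset
  refine ⟨B1, hB1, ?_⟩
  intro q B hB1B hq hqf A _ _ _ hG J hJ l V hAt π hπ j0 hj0 D D' hD hD2 hD' hD'2 μ μ' E hμ hE hEe
    δ δ' hδ hδ' hPV hPV' hrel M hM hM'
  classical
  have : CharZero A := algebraRat.charZero A
  have hl := hAt.pr
  have hl0 : (l : A) ≠ 0 := by exact_mod_cast hl.ne_zero
  have hDz : D ≠ 0 := by
    rintro rfl
    exact hD2 (dvd_zero _)
  have hDz' : D' ≠ 0 := by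
    rintro rfl
    exact hD'2 (dvd_zero _)
  have hDA : (D : A) ≠ 0 := by exact_mod_cast hDz
  have hDA' : (D' : A) ≠ 0 := by exact_mod_cast hDz'
  have hlc : (f.leadingCoeff : A) ≠ 0 := (hG.lc l V hAt).1
  -- the action on the embeddings
  have hJs : ∀ (σ : A ≃ₐ[ℚ] A) (i : Rt f A) (z : L), σ (J i z) = J (σ • i) z := by
    intro σ i z
    obtain ⟨d, rfl⟩ := Pool.Agent.Q239.EL.theta_surj hset z
    have h1 : J i (aeval θ d) = aeval i.1 d := by rw [← aeval_algHom_apply, hJ]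
    have h2 : J (σ • i) (aeval θ d) = aeval (σ • i).1 d := by rw [← aeval_algHom_apply, hJ]
    rw [h1, h2, smul_val]
    exact (aeval_algHom_apply (σ : A →ₐ[ℚ] A) i.1 d).symm
  have hJne : ∀ (i : Rt f A) {z : L}, z ≠ 0 → J i z ≠ 0 := fun i z hz =>
    (map_ne_zero_iff _ (J i).injective).2 hz
  -- the exponents
  have hexp : ∀ (δ : L) (μ : Rt f A → ℤ), (∀ i, PV q V l (J i δ) (μ i)) →
      (∀ σ : A ≃ₐ[ℚ] A, Dec V σ → ∀ i : Rt f A, μ (σ • i) = μ i) →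
      (∃ e : ℤ, VecP q l δ (fun v => M v + e)) →
      ∃ (e : ℤ) (n : Rt f A → ℤ), (∀ i, μ i = M (π i) + e + q * n i) ∧
        ∀ σ : A ≃ₐ[ℚ] A, Dec V σ → ∀ i : Rt f A, n (σ • i) = n i := by
    rintro δ μ h1 h2 ⟨e, he⟩
    have h3 : ∀ i, ∃ n : ℤ, μ i = M (π i) + e + q * n := by
      intro i
      obtain ⟨k, hk⟩ := h1 i
      obtain ⟨k', hk'⟩ := he (π i) (hπ.abv i)
      have h4 := (hπ.val i δ _).1 hk'
      have h5 := Vl_unique hl0 hAt.ab hk h4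
      exact ⟨k' - k, by linarith⟩
    choose n hn using h3
    refine ⟨e, n, hn, ?_⟩
    intro σ hσ i
    have h4 := hn (σ • i)
    rw [h2 σ hσ, hn i, hπ.inv σ hσ] at h4
    have h5 : (q : ℤ) * n i = q * n (σ • i) := by linarith
    have hq0 : (q : ℤ) ≠ 0 := by exact_mod_cast hq.ne_zero
    exact (mul_left_cancel₀ hq0 h5).symm
  obtain ⟨e, n, hn, hninv⟩ := hexp δ μ hPV (fun σ hσ i => (hμ σ hσ i).1) hM
  obtain ⟨e', n', hn', hninv'⟩ := hexp δ' μ' hPV' (fun σ hσ i => (hμ σ hσ i).2) hM'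
  -- the relation
  let m : Rt f A → ℤ := fun i => M (π i)
  obtain ⟨c, hc⟩ : ∃ c : A, c = (D' : A) / D := ⟨_, rfl⟩
  have hc0 : c ≠ 0 := by rw [hc]; exact div_ne_zero hDA' hDA
  let G : Rt f A → A := fun i => (∏ r, Cf f D' r i j0 ^ n' r) / ((∏ r, Cf f D r i j0 ^ n r) * E i j0)
  have hG0 : ∀ i, G i ≠ 0 := fun i => div_ne_zero
    (Finset.prod_ne_zero_iff.2 fun r _ => zpow_ne_zero _ (Cf_ne hDA' hlc r i j0))
    (mul_ne_zero (Finset.prod_ne_zero_iff.2 fun r _ => zpow_ne_zero _ (Cf_ne hDA hlc r i j0)) (hE i j0))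
  let S : A := J j0 δ' / J j0 δ * c ^ (-m j0)
  have hS0 : S ≠ 0 := mul_ne_zero (div_ne_zero (hJne j0 hδ') (hJne j0 hδ)) (zpow_ne_zero _ hc0)
  have key : ∀ i, J i δ' = S * c ^ m i * G i ^ q * J i δ := by
    intro i
    have h1 := hrel i j0
    rw [prod_split hDA hlc i j0 q e m n μ hn, prod_split hDA' hlc i j0 q e' m n' μ' hn',
      prod_Cf_scale hDA hDA' m i j0, ← hc] at h1
    have hP0 : ∏ r, Cf f D r i j0 ^ m r ≠ 0 :=
      Finset.prod_ne_zero_iff.2 fun r _ => zpow_ne_zero _ (Cf_ne hDA hlc r i j0)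
    have hN0 : ∏ r, Cf f D r i j0 ^ n r ≠ 0 :=
      Finset.prod_ne_zero_iff.2 fun r _ => zpow_ne_zero _ (Cf_ne hDA hlc r i j0)
    have e1 : G i = (∏ r, Cf f D' r i j0 ^ n' r) / ((∏ r, Cf f D r i j0 ^ n r) * E i j0) := rfl
    have e2 : S = J j0 δ' / J j0 δ * c ^ (-m j0) := rfl
    rw [zpow_sub₀ hc0] at h1
    rw [e1, e2, div_pow, mul_pow, zpow_neg]
    exact alg1 (hJne i hδ) (hJne j0 hδ) (hJne j0 hδ') hP0 (pow_ne_zero _ hN0)
      (pow_ne_zero _ (hE i j0)) (zpow_ne_zero _ hc0) h1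
  -- the equivariance
  have hcfix : ∀ σ : A ≃ₐ[ℚ] A, σ c = c := by
    intro σ
    rw [hc, map_div₀, map_intCast, map_intCast]
  have hSfix : ∀ σ : A ≃ₐ[ℚ] A, Dec V σ → σ S = S := by
    intro σ hσ
    change σ (J j0 δ' / J j0 δ * c ^ (-m j0)) = _
    rw [map_mul, map_div₀, map_zpow₀, hJs, hJs, hj0 σ hσ, hcfix]
  have hGfix : ∀ i, ∀ σ : A ≃ₐ[ℚ] A, Dec V σ → σ • i = i → σ (G i) = G i := by
    intro i σ hσ hi
    change σ ((∏ r, Cf f D' r i j0 ^ n' r) / ((∏ r, Cf f D r i j0 ^ n r) * E i j0)) = _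
    rw [map_div₀, map_mul, prod_eqv D' σ n' (hninv' σ hσ), prod_eqv D σ n (hninv σ hσ), hEe σ hσ,
      hi, hj0 σ hσ]
  -- the rational numbers
  obtain ⟨s1, hs1⟩ := (hapx q B hB1B hq A hG J hJ l V hAt S hS0).2 hSfix
  have hs10 : s1 ≠ 0 := by
    intro h0
    have h1 := close_ne hS0 hs1
    rw [h0, map_zero] at h1
    exact h1 rfl
  have hDQ : (D : ℚ) ≠ 0 := by exact_mod_cast hDz
  have hDQ' : (D' : ℚ) ≠ 0 := by exact_mod_cast hDz'
  have hc2 : algebraMap ℚ A ((D' : ℚ) / D) = c := by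
    rw [hc, map_div₀, map_intCast, map_intCast]
  have hval : padicValRat l ((D' : ℚ) / D) = 0 := by
    have hfl : Fact l.Prime := ⟨hl⟩
    have hv : ∀ z : ℤ, z ≠ 0 → (l : ℤ) ∣ z → ¬ (l : ℤ) ^ 2 ∣ z → padicValInt l z = 1 := by
      intro z hz h1 h2
      have h3 : 1 ≤ padicValInt l z := by
        have := (padicValInt_dvd_iff 1 z).1 (by simpa using h1)
        tauto
      have h4 : ¬ 2 ≤ padicValInt l z := by
        intro h4
        exact h2 ((padicValInt_dvd_iff 2 z).2 (Or.inr h4))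
      omega
    rw [padicValRat.div hDQ' hDQ, padicValRat.of_int, padicValRat.of_int, hv D hDz hD hD2,
      hv D' hDz' hD' hD'2]
    simp
  refine ⟨s1, (D' : ℚ) / D, hs10, div_ne_zero hDQ' hDQ, hval, ?_⟩
  intro v hv
  obtain ⟨i, rfl⟩ := hπ.sur v hv
  obtain ⟨g, hg⟩ := (hapx q B hB1B hq A hG J hJ l V hAt (G i) (hG0 i)).1 i (hGfix i)
  have hg0 : g ≠ 0 := by
    rintro rfl
    exact close_ne (hG0 i) hg (map_zero _)
  refine ⟨g, hg0, ?_⟩
  refine hπ.lt i _ _ hδ' ?_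
  have e1 : J i (δ' - (s1 : L) * (((D' : ℚ) / D : ℚ) : L) ^ M (π i) * g ^ q * δ) =
      S * c ^ m i * G i ^ q * J i δ - algebraMap ℚ A s1 * c ^ m i * J i g ^ q * J i δ := by
    rw [map_sub, map_mul, map_mul, map_mul, map_zpow₀, map_pow, ← key i]
    have e2 : J i ((s1 : ℚ) : L) = algebraMap ℚ A s1 := by
      have := (J i).commutes s1
      rwa [eq_ratCast (algebraMap ℚ L) s1] at this
    have e3 : J i ((((D' : ℚ) / D : ℚ)) : L) = c := by
      have := (J i).commutes ((D' : ℚ) / D)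
      rw [eq_ratCast (algebraMap ℚ L) _] at this
      rw [this, hc2]
    rw [e2, e3]
  rw [e1, key i, alg2 (hJne i hδ) hS0 (zpow_ne_zero _ hc0) (pow_ne_zero _ (hG0 i)), ← div_pow]
  have h1 : 1 - algebraMap ℚ A s1 / S ∈ V.nonunits := by
    have e2 : 1 - algebraMap ℚ A s1 / S = (S - algebraMap ℚ A s1) / S := by
      rw [sub_div, div_self hS0]
    rw [e2]
    exact hs1
  have h2 : 1 - J i g / G i ∈ V.nonunits := by
    have e2 : 1 - J i g / G i = (G i - J i g) / G i := by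
      rw [sub_div, div_self (hG0 i)]
    rw [e2]
    exact hg
  exact mul_close h1 (pow_close h2 q)

end Pool.Agent.Q51.SY
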