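import Pool.Agent.Q190.ZC.Rel

/-! # Project SY: the relation in the residue fields different from the one of `v0` -/

set_option autoImplicit false

namespace Pool.Agent.Q51.SY

open Polynomial NumberField IsDedekindDomain Finset
open Pool.Agent.Q51.EL (Abv)
open Pool.Agent.Q190.ZC (Cg frac_cg exists_inv_mod val_int_one)
open Pool.Agent.Q239.EL

variable {L : Type} [Field L] [NumberField L]

theorem rel_ty2 {q l : ℕ} (hl : l.Prime) (hsq : Squarefree (Ideal.span {(l : 𝓞 L)}))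
    (v0 : HeightOneSpectrum (𝓞 L)) {γ0 γ : 𝓞 L}
    (h0 : ∀ v : HeightOneSpectrum (𝓞 L), Abv v l → v ≠ v0 → γ0 ∉ v.asIdeal)
    (h1 : ∀ v : HeightOneSpectrum (𝓞 L), Abv v l → v ≠ v0 → γ ∉ v.asIdeal)
    {s1 : ℚ} (hs1 : s1 ≠ 0)
    (hg : ∀ v : HeightOneSpectrum (𝓞 L), Abv v l → v ≠ v0 → ∃ g : L, g ≠ 0 ∧
      v.valuation L ((γ : L) - (s1 : L) * g ^ q * (γ0 : L)) < 1) :
    ∃ c : ℤ, ¬ (l : ℤ) ∣ c ∧ ∀ v : HeightOneSpectrum (𝓞 L), Abv v l → v ≠ v0 →
      ∃ h : 𝓞 L, (c : 𝓞 L) * γ - γ0 * h ^ q ∈ v.asIdeal := by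
  haveI : Fact l.Prime := ⟨hl⟩
  obtain ⟨k1, a1, b1, ha1, hb1, hs1e⟩ := Pool.Agent.Q65.SE.rat_split hl hs1
  have hlp := Nat.prime_iff_prime_int.mp hl
  have hlL : (l : L) ≠ 0 := by exact_mod_cast hl.ne_zero
  obtain ⟨c1, hc1, hc1'⟩ := exists_inv_mod hl ha1
  refine ⟨b1 * c1, fun h => (hlp.dvd_or_dvd h).elim hb1 hc1, ?_⟩
  have hvl : ∀ v : HeightOneSpectrum (𝓞 L), Abv v l →
      v.valuation L (l : L) = WithZero.exp (-1 : ℤ) := by
    intro v hv
    have h2 : ((l : 𝓞 L) : L) = (l : L) := by simp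
    rw [← h2, val_int v (by exact_mod_cast hl.ne_zero), mu_l hsq hv]
    rfl
  have hs1L : (s1 : L) = (l : L) ^ k1 * ((a1 : L) / (b1 : L)) := by
    rw [hs1e]
    push_cast
    rw [mul_div_assoc]
  have hu : ∀ v : HeightOneSpectrum (𝓞 L), Abv v l → ∀ {a b : ℤ}, ¬ (l : ℤ) ∣ a →
      ¬ (l : ℤ) ∣ b → v.valuation L ((a : L) / (b : L)) = 1 := by
    intro v hv a b ha hb
    rw [map_div₀, val_int_one hl hv ha, val_int_one hl hv hb, div_one]
  intro v hv hne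
  obtain ⟨g, hg0, hgv⟩ := hg v hv hne
  have hvγ : v.valuation L (γ : L) = 1 :=
    (HeightOneSpectrum.valuation_eq_one_iff_notMem (K := L) v).2 (h1 v hv hne)
  have hvγ0 : v.valuation L (γ0 : L) = 1 :=
    (HeightOneSpectrum.valuation_eq_one_iff_notMem (K := L) v).2 (h0 v hv hne)
  obtain ⟨m, hm⟩ := val_exp (v := v) hg0
  have hmk : (q : ℤ) * m = k1 := by
    have h2 : v.valuation L ((s1 : L) * g ^ q * (γ0 : L)) = 1 := by
      have h3 : (s1 : L) * g ^ q * (γ0 : L) =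
          (γ : L) + -((γ : L) - (s1 : L) * g ^ q * (γ0 : L)) := by ring
      rw [h3, Valuation.map_add_eq_of_lt_left _ (by rw [Valuation.map_neg, hvγ]; exact hgv), hvγ]
    rw [map_mul, map_mul, map_pow, hvγ0, mul_one, hs1L, map_mul, hu v hv ha1 hb1, mul_one,
      map_zpow₀, hvl v hv, hm, ← WithZero.exp_nsmul, ← WithZero.exp_zsmul, ← WithZero.exp_add,
      ← WithZero.exp_zero, WithZero.exp_inj] at h2
    simp only [smul_eq_mul, nsmul_eq_mul] at h2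
    linarith
  obtain ⟨g', hg'⟩ : ∃ g' : L, g' = g * (l : L) ^ m := ⟨_, rfl⟩
  have hg'v : v.valuation L g' = 1 := by
    rw [hg', map_mul, map_zpow₀, hvl v hv, hm, ← WithZero.exp_zsmul, ← WithZero.exp_add,
      ← WithZero.exp_zero, WithZero.exp_inj]
    simp
  have heq : (s1 : L) * g ^ q = ((a1 : L) / (b1 : L)) * g' ^ q := by
    have e1 : (l : L) ^ k1 = ((l : L) ^ m) ^ q := by
      rw [← hmk, mul_comm, zpow_mul, zpow_natCast]
    rw [hs1L, hg', e1]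
    ring
  obtain ⟨h, hh⟩ := v.exists_valuation_sub_lt_of_integer (K := L) (x := g') hg'v.le 1
  have c1g : Cg v g' (h : L) := by
    refine ⟨hg'v.le, v.valuation_le_one _, ?_⟩
    rw [← Valuation.map_sub_swap]
    exact hh
  refine ⟨h, ?_⟩
  have hnz : ∀ {z : ℤ}, ¬ (l : ℤ) ∣ z → (z : L) ≠ 0 := by
    intro z hz h
    have h2 : z = 0 := by exact_mod_cast h
    exact hz (h2 ▸ dvd_zero _)
  have ca := frac_cg (L := L) hl hv hb1 ha1 hc1'
  have cc1 := ca.mul (Cg.refl (v := v) (x := (γ : L)) (v.valuation_le_one _))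
  have cc2 := (c1g.pow q).mul (Cg.refl (v := v) (x := (γ0 : L)) (v.valuation_le_one _))
  have h3 : v.valuation L (((b1 * c1 : ℤ) : L) * (γ : L) - (γ0 : L) * (h : L) ^ q) < 1 := by
    have e : ((b1 * c1 : ℤ) : L) * (γ : L) - (γ0 : L) * (h : L) ^ q =
        -(((b1 : L) / (a1 : L)) * (γ : L) - ((b1 * c1 : ℤ) : L) * (γ : L)) +
        (((b1 : L) / (a1 : L)) * ((γ : L) - (s1 : L) * g ^ q * (γ0 : L)) +
        (g' ^ q * (γ0 : L) - (h : L) ^ q * (γ0 : L))) := by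
      rw [heq]
      have h4 := hnz ha1
      have h5 := hnz hb1
      field_simp
      ring
    rw [e]
    refine (Valuation.map_add _ _ _).trans_lt (max_lt ?_ ?_)
    · rw [Valuation.map_neg]
      exact cc1.2.2
    · refine (Valuation.map_add _ _ _).trans_lt (max_lt ?_ cc2.2.2)
      rw [map_mul, hu v hv hb1 ha1, one_mul]
      exact hgv
  rw [← HeightOneSpectrum.valuation_lt_one_iff_mem (K := L) v]
  have e2 : ((((b1 * c1 : ℤ) : 𝓞 L) * γ - γ0 * h ^ q : 𝓞 L) : L) =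
      ((b1 * c1 : ℤ) : L) * (γ : L) - (γ0 : L) * (h : L) ^ q := by
    simp
  change v.valuation L ((((b1 * c1 : ℤ) : 𝓞 L) * γ - γ0 * h ^ q : 𝓞 L) : L) < 1
  rw [e2]
  exact h3

end Pool.Agent.Q51.SY
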