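import Pool.Agent.Q51.SZ.All
import Pool.Agent.Q51.SE.All
import Pool.Agent.Q51.SY.Rel
import Pool.Agent.Q51.SY.Res

/-! # Project SY: from the Kummer classes of a section over `ℚ` to the elements of the sieve -/

set_option autoImplicit false

namespace Pool.Agent.Q51.SY

open Polynomial NumberField IsDedekindDomain Finset
open Pool.Agent.Y157.PS (Dec Ine IsU)
open Pool.Agent.Q51.SZ
open Pool.Agent.Q51.EL (Abv N1 pr Setup Gf Ty1)
open Pool.Agent.Q51.SE (Parq Zc Ty2q S_CLQ S_UNQ)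
open Pool.Agent.Q51.ZC (VecP Rel dg)
open Pool.Agent.Q239.EL (bl bl_prime bl_abv prime_unique norm_of_ph ph)

/-- the embedding given by a zero of `f` -/
theorem emb {f : ℤ[X]} {L : Type} [Field L] [NumberField L] {θ : L} (hset : Setup f L θ)
    {A : Type} [Field A] [Algebra ℚ A] [IsAlgClosure ℚ A] (i : A)
    (hi : (f.map (Int.castRingHom A)).IsRoot i) : ∃ j : L →ₐ[ℚ] A, j θ = i := by
  have hac : IsAlgClosed A := IsAlgClosure.isAlgClosed ℚ
  have halg : Algebra.IsAlgebraic ℚ A := IsAlgClosure.isAlgebraic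
  have hcA : (algebraMap ℚ A).comp (Int.castRingHom ℚ) = Int.castRingHom A :=
    RingHom.ext_int _ _
  have h2 : aeval i (f.map (Int.castRingHom ℚ)) = 0 := by
    rw [aeval_def, eval₂_map, hcA, ← eval_map]
    exact hi
  let j0 : L →ₐ[ℚ] A := IsAlgClosed.lift
  have h3 : aeval (j0 θ) (f.map (Int.castRingHom ℚ)) = 0 := by
    rw [aeval_def, eval₂_map, hcA]
    have h5 := hset.root
    rw [aeval_def] at h5
    have h6 := hom_eval₂ f (algebraMap ℤ L) (j0 : L →+* A) θ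
    rw [h5, map_zero] at h6
    have h7 : (j0 : L →+* A).comp (algebraMap ℤ L) = Int.castRingHom A := RingHom.ext_int _ _
    rw [h7] at h6
    exact h6.symm
  have hdvd : minpoly ℚ (j0 θ) ∣ f.map (Int.castRingHom ℚ) := minpoly.dvd ℚ _ h3
  have hθ : IsIntegral ℚ (j0 θ) := Algebra.IsIntegral.isIntegral _
  have hass : Associated (minpoly ℚ (j0 θ)) (f.map (Int.castRingHom ℚ)) :=
    (minpoly.irreducible hθ).associated_of_dvd hset.irr hdvd
  have h4 : aeval i (minpoly ℚ (j0 θ)) = 0 := by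
    obtain ⟨c, hc⟩ := hass.symm.dvd
    rw [hc, map_mul, h2, zero_mul]
  obtain ⟨σ, hσ⟩ := minpoly.exists_algEquiv_of_root (halg.isAlgebraic _) h4
  refine ⟨(σ.symm : A →ₐ[ℚ] A).comp j0, ?_⟩
  change σ.symm (j0 θ) = i
  rw [← hσ, AlgEquiv.symm_apply_apply]

theorem isU_pow {A : Type} [Field A] {V : ValuationSubring A} {z : A} (h : IsU V z) (n : ℕ) :
    IsU V (z ^ n) := by
  induction n with
  | zero => rw [pow_zero]; exact Pool.Agent.Y157.PS.isU_one
  | succ n ih => rw [pow_succ]; exact ih.mul h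

/-- The elements of `𝓞 L` that belong to the sections form finitely many sets which satisfy the hypotheses of the
large sieve. -/
def S_ARQ : Prop := ∀ (f : ℤ[X]) (L : Type) [Field L] [NumberField L] (θ : L), Setup f L θ →
  ∀ q : ℕ, q.Prime → q ∣ f.natDegree → ∀ (A : Type) [Field A] [Algebra ℚ A] [IsAlgClosure ℚ A]
  (B0 : ℕ), B0 ≠ 0 →
  ∃ (B : ℕ) (C : ℝ) (N : ℕ) (T : Fin N → Set (𝓞 L)), B ≠ 0 ∧ 0 < C ∧
    (∀ k, ∀ l : ℕ, l.Prime → ¬ l ∣ B → Ty1 l (T k) ∧ Ty2q q l (T k)) ∧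
    ∀ D : ℤ, Squarefree D → (∃ a, KSys f q A D B0 ⊤ a) →
      ∃ k, ∃ α ∈ T k, (∀ l : ℕ, l.Prime → ¬ l ∣ B → ((l : ℤ) ∣ D ↔
          ∃ v : HeightOneSpectrum (𝓞 L), Abv v l ∧ α ∈ v.asIdeal)) ∧
        ∀ σ : L →+* ℂ, ‖σ (α : L)‖ ≤ C * (D.natAbs : ℝ) ^ ((1 : ℝ) / f.natDegree)

theorem arq (hGD : S_GD) (hINV : S_INV) (hPLC : S_PLC) (hFIB : S_FIB) (hDEL : S_DEL)
    (hVLB : S_VLB) (hTYP : S_TYP) (hREL : S_REL0) (hCLQ : S_CLQ) (hUNQ : S_UNQ) : S_ARQ := by
  classical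
  intro f L _ _ θ hset q hq hqf A _ _ _ B0 hB0
  have hac : IsAlgClosed A := IsAlgClosure.isAlgClosed ℚ
  have : CharZero A := algebraRat.charZero A
  obtain ⟨B1, hB1, hrel⟩ := hREL f L θ hset
  obtain ⟨B2, hB2, hdel⟩ := hDEL L q hq.ne_zero
  obtain ⟨Bc, Cc, hBc, hCc, hB2c, hclq⟩ := hCLQ L q hq.two_le B2 hB2
  obtain ⟨Cu, hCu, hunq⟩ := hUNQ L q hq.pos
  obtain ⟨B3, hB3, -, hgood⟩ := hGD f hset.irr q (B0 * (B1 * Bc)) hq.ne_zero
    (mul_ne_zero hB0 (mul_ne_zero hB1 hBc))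
  obtain ⟨B4, hB4, hram⟩ := (Pool.Agent.Q91.EL.ram L).1
  have hB3n : B3 ≠ 0 := (hgood A).ne
  set B : ℕ := B3 * B4 with hB
  have hBn : B ≠ 0 := mul_ne_zero hB3n hB4
  have d3 : B3 ∣ B := Dvd.intro _ rfl
  have d4 : B4 ∣ B := Dvd.intro_left _ rfl
  have d0 : B0 ∣ B := ((Dvd.intro _ rfl).trans hB3).trans d3
  have d1 : B1 ∣ B := (((Dvd.intro _ rfl).trans (Dvd.intro_left _ rfl)).trans hB3).trans d3
  have dc : Bc ∣ B :=
    (((Dvd.intro_left _ rfl).trans (Dvd.intro_left _ rfl)).trans hB3).trans d3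
  have hgd : Gd A f q B := (hgood A).mono d3 hBn
  have hsqf : ∀ l : ℕ, l.Prime → ¬ l ∣ B → Squarefree (Ideal.span {(l : 𝓞 L)}) :=
    fun l hl hlB => hram l hl fun h => hlB (h.trans d4)
  have hnd : ∀ l : ℕ, l.Prime → (l : A) ≠ 0 := fun l hl => Nat.cast_ne_zero.mpr hl.ne_zero
  have hn0 : 0 < f.natDegree := by
    rw [← hset.deg]
    exact Module.finrank_pos
  have hnR : (0 : ℝ) < f.natDegree := by exact_mod_cast hn0
  -- the embeddings
  have hJ0 : ∀ i : Rt f A, ∃ j : L →ₐ[ℚ] A, j θ = i.1 := by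
    intro i
    have h1 : (f.map (Int.castRingHom A)).IsRoot i.1 := (mem_rts.mp i.2).2
    exact Pool.Agent.Q51.SY.emb hset i.1 h1
  choose J hJ using hJ0
  have hJs : ∀ (σ : A ≃ₐ[ℚ] A) (i : Rt f A) (z : L), σ (J i z) = J (σ • i) z := by
    intro σ i z
    obtain ⟨d, rfl⟩ := Pool.Agent.Q239.EL.theta_surj hset z
    have h1 : J i (aeval θ d) = aeval i.1 d := by rw [← aeval_algHom_apply, hJ]
    have h2 : J (σ • i) (aeval θ d) = aeval (σ • i).1 d := by rw [← aeval_algHom_apply, hJ]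
    rw [h1, h2, smul_val]
    exact (aeval_algHom_apply (σ : A →ₐ[ℚ] A) i.1 d).symm
  -- valuation rings
  have hV0 : ∀ l : ℕ, ∃ V : ValuationSubring A, l.Prime → (l : A) ∈ V.nonunits := by
    intro l
    by_cases hl : l.Prime
    · obtain ⟨V, φ, h1, -⟩ := Pool.Agent.Q150.SX.plc A l hl
      exact ⟨V, fun _ => h1⟩
    · exact ⟨⊤, fun h => absurd h hl⟩
  choose V hV using hV0
  have hAt : ∀ l : ℕ, l.Prime → ¬ l ∣ B → At A B l (V l) := fun l hl hlB => ⟨hl, hlB, hV l hl⟩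
  obtain ⟨i00⟩ : Nonempty (Rt f A) := by
    have h1 : 0 < (rts f A).card := by rw [hgd.crd]; exact hn0
    obtain ⟨e, he⟩ := Finset.card_pos.mp h1
    exact ⟨⟨e, he⟩⟩
  have hv00 : Nonempty (HeightOneSpectrum (𝓞 L)) := by
    obtain ⟨l, hl1, hl2⟩ := Nat.exists_infinite_primes (B + 1)
    have hlB : ¬ l ∣ B := fun h => by
      have := Nat.le_of_dvd (Nat.pos_of_ne_zero hBn) h
      omega
    obtain ⟨π, -⟩ := hPLC f L θ hset q B A hgd hsqf J hJ l (V l) (hAt l hl2 hlB)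
    exact ⟨π i00⟩
  obtain ⟨v00⟩ := hv00
  have hπ0 : ∀ l : ℕ, ∃ π : Rt f A → HeightOneSpectrum (𝓞 L), l.Prime → ¬ l ∣ B →
      Plc J l (V l) π := by
    intro l
    by_cases hl : l.Prime ∧ ¬ l ∣ B
    · obtain ⟨π, hπ⟩ := hPLC f L θ hset q B A hgd hsqf J hJ l (V l) (hAt l hl.1 hl.2)
      exact ⟨π, fun _ _ => hπ⟩
    · exact ⟨fun _ => v00, fun h1 h2 => absurd ⟨h1, h2⟩ hl⟩
  choose π hπ using hπ0
  -- the set of the twists
  set T : Set ℤ := {D | Squarefree D ∧ ∃ a, KSys f q A D B0 ⊤ a} with hT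
  have hb' : ∀ D : ℤ, ∃ b : Rt f A → Rt f A → A, D ∈ T → KSys f q A D B0 ⊤ b := by
    intro D
    by_cases hD : D ∈ T
    · obtain ⟨b, h⟩ := hD.2
      exact ⟨b, fun _ => h⟩
    · exact ⟨fun _ _ => 0, fun h => absurd h hD⟩
  choose b hbs using hb'
  have hsq2 : ∀ D ∈ T, ∀ l : ℕ, l.Prime → ¬ (l : ℤ) ^ 2 ∣ D := by
    intro D hD l hl h2
    rw [pow_two] at h2
    have h3 := hD.1 _ h2
    rw [Int.isUnit_iff_natAbs_eq, Int.natAbs_natCast] at h3
    exact hl.one_lt.ne' h3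
  -- the primes dividing `D`
  have hru : ∀ (D : ℤ) (l : ℕ), ∃ (r : Rt f A) (u : Rt f A → Rt f A → A),
      D ∈ T → l.Prime → ¬ l ∣ B → (l : ℤ) ∣ D →
      (∀ σ : A ≃ₐ[ℚ] A, Dec (V l) σ → σ • r = r) ∧
      ∀ i j, b D i j = Cf f D r i j * u i j ^ q ∧
        ∀ σ : A ≃ₐ[ℚ] A, Dec (V l) σ → σ (u i j) = u (σ • i) (σ • j) := by
    intro D l
    by_cases h : D ∈ T ∧ l.Prime ∧ ¬ l ∣ B ∧ (l : ℤ) ∣ D
    · rcases (hbs D h.1).loc l (V l) ((hAt l h.2.1 h.2.2.1).mono d0) with h1 | h1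
      · exfalso
        have h2 := h1.2 h.2.2.2
        rw [Subgroup.relIndex_top_left] at h2
        exact hq.one_lt.ne' (Nat.dvd_one.mp h2)
      · obtain ⟨-, r, hr, u, hu⟩ := h1
        exact ⟨r, u, fun _ _ _ _ => ⟨fun σ hσ => hr σ (Subgroup.mem_top _) hσ,
          fun i j => ⟨(hu i j).1, fun σ hσ => (hu i j).2 σ (Subgroup.mem_top _) hσ⟩⟩⟩
    · exact ⟨i00, fun _ _ => 0, fun h1 h2 h3 h4 => absurd ⟨h1, h2, h3, h4⟩ h⟩
  choose r u hru using hru
  -- the primes not dividing `D`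
  have hout : ∀ D ∈ T, ∀ l : ℕ, l.Prime → ¬ l ∣ B → ¬ (l : ℤ) ∣ D → ∀ i j,
      PV q (V l) l (b D i j) 0 := by
    intro D hD l hl hlB hlD i j
    rcases (hbs D hD).loc l (V l) ((hAt l hl hlB).mono d0) with h1 | h1
    · obtain ⟨⟨w, hw⟩, -⟩ := h1
      have hw0 : w i j ≠ 0 := by
        intro h0
        have h2 := (hw i j).1
        rw [h0, zero_pow hq.ne_zero] at h2
        exact (hbs D hD).nz i j h2
      obtain ⟨k, hk⟩ := (hINV f q B A hgd hq l (V l) (hAt l hl hlB)).2.1 (w i j) hw0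
        (fun σ hσ => (hw i j).2 σ (Subgroup.mem_top _) hσ)
      refine ⟨k, ?_⟩
      have h3 : b D i j / (l : A) ^ (0 + q * k) = (w i j / (l : A) ^ k) ^ q := by
        rw [(hw i j).1, div_pow, zero_add, mul_comm (q : ℤ) k, zpow_mul, zpow_natCast]
      rw [h3]
      exact Pool.Agent.Q51.SY.isU_pow hk q
    · exact absurd h1.1 hlD
  -- the prime `v0`
  have hbl : ∀ {v : HeightOneSpectrum (𝓞 L)} {l : ℕ}, l.Prime → Abv v l → bl v = l :=
    fun hl hv => prime_unique (bl_prime _) hl (bl_abv _) hv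
  let PF : ℤ → Finset ℕ := fun D => D.natAbs.primeFactors.filter (fun l => ¬ l ∣ B)
  let SF : ℤ → Finset (HeightOneSpectrum (𝓞 L)) := fun D => (PF D).image (fun l => π l (r D l))
  have hPF : ∀ D ∈ T, ∀ l : ℕ, l ∈ PF D ↔ l.Prime ∧ (l : ℤ) ∣ D ∧ ¬ l ∣ B := by
    intro D hD l
    have hD0 : D.natAbs ≠ 0 := Int.natAbs_ne_zero.mpr hD.1.ne_zero
    simp only [PF, mem_filter, Nat.mem_primeFactors, Int.natCast_dvd]
    tauto
  have hSF : ∀ D ∈ T, ∀ l : ℕ, l.Prime → ¬ l ∣ B → ∀ v : HeightOneSpectrum (𝓞 L), Abv v l →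
      (v ∈ SF D ↔ (l : ℤ) ∣ D ∧ π l (r D l) = v) := by
    intro D hD l hl hlB v hv
    constructor
    · intro h
      obtain ⟨l', hl', h2⟩ := mem_image.mp h
      obtain ⟨a1, a2, a3⟩ := (hPF D hD l').mp hl'
      have h3 : l' = l := prime_unique a1 hl (by rw [← h2]; exact (hπ l' a1 a3).abv _) hv
      subst h3
      exact ⟨a2, h2⟩
    · rintro ⟨h1, h2⟩
      exact mem_image.mpr ⟨l, (hPF D hD l).mpr ⟨hl, h1, hlB⟩, h2⟩
  have hSFB : ∀ D ∈ T, ∀ v ∈ SF D, ∃ l : ℕ, l.Prime ∧ ¬ l ∣ B ∧ (l : ℤ) ∣ D ∧ Abv v l := by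
    intro D hD v h
    obtain ⟨l', hl', h2⟩ := mem_image.mp h
    obtain ⟨a1, a2, a3⟩ := (hPF D hD l').mp hl'
    exact ⟨l', a1, a3, a2, by rw [← h2]; exact (hπ l' a1 a3).abv _⟩
  have hdet : ∀ D ∈ T, ∀ l : ℕ, l.Prime → ¬ l ∣ B → (l : ℤ) ∣ D → ∀ i,
      π l (r D l) = π l i ↔ r D l = i := by
    intro D hD l hl hlB hlD i
    constructor
    · intro h
      obtain ⟨σ, hσ, hσi⟩ := (hπ l hl hlB).tr _ _ h
      rw [← hσi]
      exact ((hru D l hD hl hlB hlD).1 σ hσ).symm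
    · intro h
      rw [h]
  have hnorm : ∀ D ∈ T, ∀ l : ℕ, l.Prime → ¬ l ∣ B → (l : ℤ) ∣ D →
      Ideal.absNorm (π l (r D l)).asIdeal = l := by
    intro D hD l hl hlB hlD
    have : Fact l.Prime := ⟨hl⟩
    refine norm_of_ph ((hπ l hl hlB).abv _) ?_
    have h1 := (hFIB f L θ hset q B A hgd hsqf J hJ l (V l) (hAt l hl hlB) (π l) (hπ l hl hlB)
      (π l (r D l)) ((hπ l hl hlB).abv _)).2
    have h2 : univ.filter (fun i => π l i = π l (r D l)) = {r D l} := by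
      ext i
      rw [mem_filter, mem_singleton]
      constructor
      · intro h
        exact ((hdet D hD l hl hlB hlD i).mp h.2.symm).symm
      · intro h
        exact ⟨mem_univ _, by rw [h]⟩
    rw [h2, card_singleton] at h1
    exact h1.symm
  have hprod : ∀ D ∈ T, (∏ v ∈ SF D, ((Ideal.absNorm v.asIdeal : ℕ) : ℝ)) ≤ (D.natAbs : ℝ) := by
    intro D hD
    have hD0 : D.natAbs ≠ 0 := Int.natAbs_ne_zero.mpr hD.1.ne_zero
    have h1 : ∏ v ∈ SF D, ((Ideal.absNorm v.asIdeal : ℕ) : ℝ) = ((∏ l ∈ PF D, l : ℕ) : ℝ) := by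
      change ∏ v ∈ (PF D).image (fun l => π l (r D l)), _ = _
      rw [prod_image]
      · push_cast
        refine prod_congr rfl fun l hl => ?_
        obtain ⟨a1, a2, a3⟩ := (hPF D hD l).mp hl
        rw [hnorm D hD l a1 a3 a2]
      · intro l hl l' hl' h
        obtain ⟨a1, a2, a3⟩ := (hPF D hD l).mp hl
        obtain ⟨b1, b2, b3⟩ := (hPF D hD l').mp hl'
        refine prime_unique a1 b1 ((hπ l a1 a3).abv (r D l)) ?_
        have h2 : π l (r D l) = π l' (r D l') := h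
        rw [h2]
        exact (hπ l' b1 b3).abv _
    rw [h1]
    have h2 : ∏ l ∈ PF D, l ≤ D.natAbs := by
      refine Nat.le_of_dvd (Nat.pos_of_ne_zero hD0) ?_
      refine (prod_dvd_prod_of_subset _ _ _ (filter_subset _ _)).trans ?_
      exact Nat.prod_primeFactors_dvd _
    exact_mod_cast h2
  -- the elements
  have hα0 : ∀ D ∈ T, ∃ α : 𝓞 L, α ≠ 0 ∧
      (∀ v : HeightOneSpectrum (𝓞 L), (Bc : 𝓞 L) ∉ v.asIdeal →
        (v ∈ SF D → v.valuation L (α : L) = WithZero.exp (-1 : ℤ)) ∧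
        (v ∉ SF D → v.valuation L (α : L) = 1)) ∧
      ∀ σ : L →+* ℂ, ‖σ (α : L)‖ ≤
        (Cu * Cc ^ ((1 : ℝ) / f.natDegree)) * (D.natAbs : ℝ) ^ ((1 : ℝ) / f.natDegree) := by
    intro D hD
    obtain ⟨δ, hδ0, hδ⟩ := hdel (fun v => if v ∈ SF D then 1 else 0)
      ((SF D).finite_toSet.subset fun v hv => by
        by_contra h
        exact hv (if_neg h))
    obtain ⟨η, α0, hη, hα0, hαv, hαN⟩ := hclq δ (SF D) hδ0 (fun v hv => by
      have hvB2 : (B2 : 𝓞 L) ∉ v.asIdeal := by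
        intro h
        obtain ⟨c, hc⟩ := hB2c
        apply hv
        rw [hc]
        push_cast
        exact Ideal.mul_mem_right _ _ h
      have h1 := hδ v hvB2
      constructor
      · intro h
        rwa [if_pos h] at h1
      · intro h
        rwa [if_neg h] at h1)
    have hα00 : α0 ≠ 0 := by
      intro h0
      rw [h0] at hα0
      have : δ * η ^ q ≠ 0 := mul_ne_zero hδ0 (pow_ne_zero _ hη)
      exact this (by rw [← hα0]; simp)
    obtain ⟨w, hw⟩ := hunq α0 hα00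
    have hwv : ∀ v : HeightOneSpectrum (𝓞 L), v.valuation L ((w : 𝓞 L) : L) = 1 := by
      intro v
      rw [HeightOneSpectrum.valuation_eq_one_iff_notMem]
      intro h
      exact v.isPrime.ne_top (Ideal.eq_top_of_isUnit_mem _ h w.isUnit)
    have hval : ∀ v : HeightOneSpectrum (𝓞 L),
        v.valuation L ((α0 * (w : 𝓞 L) ^ q : 𝓞 L) : L) = v.valuation L (α0 : L) := by
      intro v
      have e : ((α0 * (w : 𝓞 L) ^ q : 𝓞 L) : L) = (α0 : L) * ((w : 𝓞 L) : L) ^ q := by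
        simp
      rw [e, map_mul, map_pow, hwv, one_pow, mul_one]
    refine ⟨α0 * (w : 𝓞 L) ^ q, mul_ne_zero hα00 (pow_ne_zero _ w.ne_zero), ?_, ?_⟩
    · intro v hv
      rw [hval]
      exact hαv v hv
    · intro σ
      refine (hw σ).trans ?_
      rw [mul_assoc]
      refine mul_le_mul_of_nonneg_left ?_ hCu.le
      rw [hset.deg, ← Real.mul_rpow hCc.le (Nat.cast_nonneg _)]
      refine Real.rpow_le_rpow (Nat.cast_nonneg _) (hαN.trans ?_) (by positivity)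
      exact mul_le_mul_of_nonneg_left (hprod D hD) hCc.le
  choose! α hαn hαv hαb using hα0
  have hαin : ∀ D ∈ T, ∀ l : ℕ, l.Prime → ¬ l ∣ B → ∀ v : HeightOneSpectrum (𝓞 L), Abv v l →
      v.valuation L (α D : L) =
        WithZero.exp (-(if (l : ℤ) ∣ D ∧ π l (r D l) = v then (1 : ℤ) else 0)) := by
    intro D hD l hl hlB v hv
    have h1 := hαv D hD v (not_mem_of_ndvd hl hv fun h => hlB (h.trans dc))
    by_cases h : v ∈ SF D
    · rw [h1.1 h, if_pos ((hSF D hD l hl hlB v hv).mp h)]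
    · rw [h1.2 h, if_neg (fun h' => h ((hSF D hD l hl hlB v hv).mpr h')), neg_zero,
        WithZero.exp_zero]
  -- the exponents
  let M : ℤ → ℕ → Rt f A → ℤ := fun D l i => if r D l = i then 1 else 0
  have hMprod : ∀ D l i j, ∏ s, Cf f D s i j ^ M D l s = Cf f D (r D l) i j := by
    intro D l i j
    rw [prod_eq_single (r D l)]
    · simp only [M, if_pos, zpow_one]
    · intro s _ hs
      simp only [M, if_neg (Ne.symm hs), zpow_zero]
    · intro h
      exact absurd (mem_univ _) h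
  have hMinv : ∀ D ∈ T, ∀ l : ℕ, l.Prime → ¬ l ∣ B → (l : ℤ) ∣ D →
      ∀ σ : A ≃ₐ[ℚ] A, Dec (V l) σ → ∀ i : Rt f A, M D l (σ • i) = M D l i := by
    intro D hD l hl hlB hlD σ hσ i
    have h1 := (hru D l hD hl hlB hlD).1 σ hσ
    simp only [M]
    congr 1
    rw [eq_iff_iff]
    constructor
    · intro h
      rw [← h1] at h
      exact (MulAction.injective σ) h
    · intro h
      rw [← h]
      exact h1.symm
  have hJn : ∀ D ∈ T, ∀ i, J i (α D : L) ≠ 0 := fun D hD i =>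
    (map_ne_zero (J i)).mpr (by exact_mod_cast hαn D hD)
  have hpvin : ∀ D ∈ T, ∀ l : ℕ, l.Prime → ¬ l ∣ B → (l : ℤ) ∣ D → ∀ i,
      PV q (V l) l (J i (α D : L)) (M D l i) := by
    intro D hD l hl hlB hlD i
    refine ⟨0, ?_⟩
    have h1 := hαin D hD l hl hlB (π l i) ((hπ l hl hlB).abv i)
    rw [mul_zero, add_zero]
    refine ((hπ l hl hlB).val i (α D : L) _).mp ?_
    rw [h1]
    simp only [M]
    congr 2
    by_cases h : r D l = i
    · rw [if_pos h, if_pos ⟨hlD, by rw [h]⟩]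
    · rw [if_neg h, if_neg]
      rintro ⟨-, h2⟩
      exact h ((hdet D hD l hl hlB hlD i).mp h2)
  have hpvout : ∀ D ∈ T, ∀ l : ℕ, l.Prime → ¬ l ∣ B → ¬ (l : ℤ) ∣ D → ∀ i,
      PV q (V l) l (J i (α D : L)) 0 := by
    intro D hD l hl hlB hlD i
    refine ⟨0, ?_⟩
    have h1 := hαin D hD l hl hlB (π l i) ((hπ l hl hlB).abv i)
    rw [if_neg (fun h => hlD h.1)] at h1
    rw [mul_zero, add_zero]
    exact ((hπ l hl hlB).val i (α D : L) 0).mp h1
  -- the types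
  let t : ℤ → Rt f A → Rt f A → A := fun D i j => b D i j / (J i (α D : L) / J j (α D : L))
  have hty : ∀ D ∈ T, Ty q B (t D) := by
    intro D hD
    refine ⟨fun i j => div_ne_zero ((hbs D hD).nz i j) (div_ne_zero (hJn D hD i) (hJn D hD j)),
      fun σ i j => ?_, fun l hl hlB => ⟨V l, hV l hl, fun i j => ?_⟩⟩
    · change σ (b D i j / (J i (α D : L) / J j (α D : L))) = _
      rw [map_div₀, map_div₀, hJs, hJs, (hbs D hD).eqv σ (Subgroup.mem_top _)]
    · by_cases hlD : (l : ℤ) ∣ D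
      · have h1 := (hpvin D hD l hl hlB hlD i).div (hnd l hl) (hpvin D hD l hl hlB hlD j)
        have h2 := hVLB f q B A hgd hq l (V l) (hAt l hl hlB) D hlD (hsq2 D hD l hl) (M D l)
          (u D l) (fun i j h0 => by
            have h5 := ((hru D l hD hl hlB hlD).2 i j).1
            rw [h0, zero_pow hq.ne_zero, mul_zero] at h5
            exact (hbs D hD).nz i j h5)
          (fun σ hσ i j => ((hru D l hD hl hlB hlD).2 i j).2 σ hσ) i j
        rw [hMprod, ← ((hru D l hD hl hlB hlD).2 i j).1] at h2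
        have h3 := h2.div (hnd l hl) h1
        rw [sub_self] at h3
        exact h3
      · have h1 := (hpvout D hD l hl hlB hlD i).div (hnd l hl) (hpvout D hD l hl hlB hlD j)
        have h2 := hout D hD l hl hlB hlD i j
        have h3 := h2.div (hnd l hl) h1
        rw [sub_self, sub_self] at h3
        exact h3
  obtain ⟨N, ty, hN⟩ := hTYP f q B hq.two_le hBn A
  -- the relation
  have hkey : ∀ D ∈ T, ∀ D' ∈ T, ty (t D) = ty (t D') → ∀ l : ℕ, l.Prime → ¬ l ∣ B →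
      (l : ℤ) ∣ D → (l : ℤ) ∣ D' → r D l = r D' l → ∃ s1 : ℚ, s1 ≠ 0 ∧
      ∀ v : HeightOneSpectrum (𝓞 L), Abv v l → v ≠ π l (r D l) → ∃ g : L, g ≠ 0 ∧
        v.valuation L ((α D' : L) - (s1 : L) * g ^ q * (α D : L)) < 1 := by
    intro D hD D' hD' hyy l hl hlB hlD hlD' hrr
    obtain ⟨e, he1, he2⟩ := hN (t D) (t D') (hty D hD) (hty D' hD') hyy
    have m2 := (hru D l hD hl hlB hlD).2
    have m2' := (hru D' l hD' hl hlB hlD').2
    have hun : ∀ i j, u D l i j ≠ 0 := fun i j h0 => by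
      have h5 := (m2 i j).1
      rw [h0, zero_pow hq.ne_zero, mul_zero] at h5
      exact (hbs D hD).nz i j h5
    have hun' : ∀ i j, u D' l i j ≠ 0 := fun i j h0 => by
      have h5 := (m2' i j).1
      rw [h0, zero_pow hq.ne_zero, mul_zero] at h5
      exact (hbs D' hD').nz i j h5
    let M0 : HeightOneSpectrum (𝓞 L) → ℤ := fun v => if π l (r D l) = v then 1 else 0
    have hvec : ∀ D1 ∈ T, (l : ℤ) ∣ D1 → r D l = r D1 l →
        VecP q l (α D1 : L) (fun v => M0 v + 0) := by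
      intro D1 hD1 hl1 hr1 v hv
      refine ⟨0, ?_⟩
      rw [hαin D1 hD1 l hl hlB v hv, mul_zero, add_zero]
      simp only [M0]
      rw [add_zero, ← hr1]
      congr 2
      by_cases h : π l (r D l) = v
      · rw [if_pos ⟨hl1, h⟩, if_pos h]
      · rw [if_neg (fun h' => h h'.2), if_neg h]
    obtain ⟨s1, s2, hs1, hs2, -, hg⟩ := hrel q B d1 hq hqf A hgd J hJ l (V l) (hAt l hl hlB) (π l)
      (hπ l hl hlB) (r D l) (hru D l hD hl hlB hlD).1 D D' hlD (hsq2 D hD l hl) hlD'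
      (hsq2 D' hD' l hl) (M D l) (M D' l) (fun i j => u D l i j * e i j / u D' l i j)
      (fun σ hσ i => ⟨hMinv D hD l hl hlB hlD σ hσ i, hMinv D' hD' l hl hlB hlD' σ hσ i⟩)
      (fun i j => div_ne_zero (mul_ne_zero (hun i j) (he1 i j).1) (hun' i j)) (by
        intro σ hσ i j
        rw [map_div₀, map_mul, (m2 i j).2 σ hσ, (m2' i j).2 σ hσ, he2]) (α D : L) (α D' : L)
      (by exact_mod_cast hαn D hD) (by exact_mod_cast hαn D' hD')
      (fun i => hpvin D hD l hl hlB hlD i) (fun i => hpvin D' hD' l hl hlB hlD' i) (by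
        intro i j
        rw [hMprod, hMprod]
        have h1 := (m2 i j).1
        have h2 := (m2' i j).1
        have h3 := (he1 i j).2
        have k1 := hJn D hD i
        have k2 := hJn D hD j
        have k3 := hJn D' hD' i
        have k4 := hJn D' hD' j
        have k5 := hun' i j
        have k6 := hun i j
        change b D' i j / (J i (α D' : L) / J j (α D' : L)) =
          b D i j / (J i (α D : L) / J j (α D : L)) * e i j ^ q at h3
        rw [h1, h2] at h3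
        have k7 : J i (α D' : L) / J j (α D' : L) ≠ 0 := div_ne_zero k3 k4
        have k8 : J i (α D : L) / J j (α D : L) ≠ 0 := div_ne_zero k1 k2
        rw [div_eq_iff k7] at h3
        have k9 : u D' l i j ^ q ≠ 0 := pow_ne_zero _ k5
        have h4 : Cf f D' (r D' l) i j =
            Cf f D (r D l) i j * u D l i j ^ q / (J i (α D : L) / J j (α D : L)) *
              e i j ^ q * (J i (α D' : L) / J j (α D' : L)) / u D' l i j ^ q := by
          rw [eq_div_iff k9]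
          exact h3
        rw [h4, div_pow, mul_pow]
        field_simp) M0 ⟨0, hvec D hD hlD rfl⟩ ⟨0, hvec D' hD' hlD' hrr⟩
    refine ⟨s1, hs1, fun v hv hne => ?_⟩
    obtain ⟨g, hg0, hgv⟩ := hg v hv
    refine ⟨g, hg0, ?_⟩
    have h1 : M0 v = 0 := if_neg (Ne.symm hne)
    rw [h1, zpow_zero, mul_one] at hgv
    have h2 : v.valuation L (α D' : L) = 1 := by
      rw [hαin D' hD' l hl hlB v hv, if_neg, neg_zero, WithZero.exp_zero]
      rintro ⟨-, h3⟩
      rw [← hrr] at h3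
      exact hne h3.symm
    rwa [h2] at hgv
  have hmem1 : ∀ D ∈ T, ∀ l : ℕ, l.Prime → ¬ l ∣ B → ∀ v : HeightOneSpectrum (𝓞 L), Abv v l →
      (α D ∈ v.asIdeal ↔ ((l : ℤ) ∣ D ∧ π l (r D l) = v)) := by
    intro D hD l hl hlB v hv
    rw [← HeightOneSpectrum.valuation_lt_one_iff_mem (K := L) v (α D)]
    change v.valuation L (α D : L) < 1 ↔ _
    rw [hαin D hD l hl hlB v hv]
    by_cases h : (l : ℤ) ∣ D ∧ π l (r D l) = v
    · rw [if_pos h]
      refine ⟨fun _ => h, fun _ => ?_⟩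
      rw [← WithZero.exp_zero, WithZero.exp_lt_exp]
      norm_num
    · rw [if_neg h, neg_zero, WithZero.exp_zero]
      exact ⟨fun h' => absurd h' (lt_irrefl _), fun h' => absurd h' h⟩
  refine ⟨B, Cu * Cc ^ ((1 : ℝ) / f.natDegree), N, fun y => {β | ∃ D ∈ T, ty (t D) = y ∧ β = α D},
    hBn, by positivity, ?_, ?_⟩
  · intro y l hl hlB
    constructor
    · rintro β ⟨D, hD, -, rfl⟩
      by_cases hlD : (l : ℤ) ∣ D
      · right
        refine ⟨π l (r D l), (hπ l hl hlB).abv _, hnorm D hD l hl hlB hlD,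
          (hmem1 D hD l hl hlB _ ((hπ l hl hlB).abv _)).mpr ⟨hlD, rfl⟩, fun v hv hne h => ?_⟩
        exact hne (((hmem1 D hD l hl hlB v hv).mp h).2).symm
      · left
        intro v hv h
        exact hlD ((hmem1 D hD l hl hlB v hv).mp h).1
    · rintro β ⟨D, hD, hy, rfl⟩ β' ⟨D', hD', hy', rfl⟩ v0 hv0 h1 h2
      obtain ⟨a1, a2⟩ := (hmem1 D hD l hl hlB v0 hv0).mp h1
      obtain ⟨b1, b2⟩ := (hmem1 D' hD' l hl hlB v0 hv0).mp h2
      have hrr : r D' l = r D l :=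
        (hdet D' hD' l hl hlB b1 (r D l)).mp (b2.trans a2.symm)
      obtain ⟨s1, hs1, hg⟩ := hkey D' hD' D hD (hy'.trans hy.symm) l hl hlB b1 a1 hrr
      refine rel_ty2 hl (hsqf l hl hlB) v0 (γ0 := α D') (γ := α D) ?_ ?_ hs1 ?_
      · intro v hv hne h
        exact hne ((((hmem1 D' hD' l hl hlB v hv).mp h).2).symm.trans b2)
      · intro v hv hne h
        exact hne ((((hmem1 D hD l hl hlB v hv).mp h).2).symm.trans a2)
      · intro v hv hne
        exact hg v hv (fun h => hne (h.trans b2))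
  · rintro D hD hDK
    have hDT : D ∈ T := ⟨hD, hDK⟩
    refine ⟨ty (t D), α D, ⟨D, hDT, rfl, rfl⟩, fun l hl hlB => ?_, fun σ => hαb D hDT σ⟩
    constructor
    · intro hlD
      exact ⟨π l (r D l), (hπ l hl hlB).abv _,
        (hmem1 D hDT l hl hlB _ ((hπ l hl hlB).abv _)).mpr ⟨hlD, rfl⟩⟩
    · rintro ⟨v, hv, h⟩
      exact ((hmem1 D hDT l hl hlB v hv).mp h).1

end Pool.Agent.Q51.SY
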