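import Pool.Agent.Q51.SY.Asm
import Pool.Agent.Q251.SX.Fin
import Pool.Agent.Q51.EL.Ratio
import Pool.Agent.Q51.SE.Pol2

/-! # Project SY: from the sets of the sieve to the number of the twists -/

set_option autoImplicit false

namespace Pool.Agent.Q51.SY

open Polynomial NumberField IsDedekindDomain Finset
open Pool.Agent.Q51.EL (Abv GN Gf Setup Gf_mono)
open Pool.Agent.Q51.SE (count)
open Pool.Agent.Q251.SX (eq_of_data)

/-- the elements `α` determine `D` up to finitely many possibilities -/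
theorem count_gen (n : ℕ) (L : Type) [Field L] [NumberField L] (B N : ℕ) (C : ℝ)
    (T : Fin N → Set (𝓞 L)) (hB : B ≠ 0) (P : ℤ → Prop)
    (hD : ∀ D : ℤ, Squarefree D → P D →
      ∃ k, ∃ α ∈ T k, (∀ l : ℕ, l.Prime → ¬ l ∣ B → ((l : ℤ) ∣ D ↔
          ∃ v : HeightOneSpectrum (𝓞 L), Abv v l ∧ α ∈ v.asIdeal)) ∧
        ∀ σ : L →+* ℂ, ‖σ (α : L)‖ ≤ C * (D.natAbs : ℝ) ^ ((1 : ℝ) / n))
    (X Y : ℝ) (hY : ∀ m : ℝ, 0 ≤ m → m ≤ X → C * m ^ ((1 : ℝ) / n) ≤ Y)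
    (hfin : ∀ k, {β ∈ T k | ∀ σ : L →+* ℂ, ‖σ (β : L)‖ ≤ Y}.Finite) (R : ℝ)
    (hR : ∀ k, (({β ∈ T k | ∀ σ : L →+* ℂ, ‖σ (β : L)‖ ≤ Y}.ncard : ℕ) : ℝ) ≤ R) :
    (({D : ℤ | (D.natAbs : ℝ) ≤ X ∧ Squarefree D ∧ P D}.ncard : ℕ) : ℝ) ≤
    N * (3 * (B + 1) * R) := by
  classical
  have hsub : {D : ℤ | (D.natAbs : ℝ) ≤ X ∧ Squarefree D ∧ P D} ⊆
      ⋃ k : Fin N, {D : ℤ | (D.natAbs : ℝ) ≤ X ∧ Squarefree D ∧ ∃ α ∈ T k,
        (∀ l : ℕ, l.Prime → ¬ l ∣ B → ((l : ℤ) ∣ D ↔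
          ∃ v : HeightOneSpectrum (𝓞 L), Abv v l ∧ α ∈ v.asIdeal)) ∧
        ∀ σ : L →+* ℂ, ‖σ (α : L)‖ ≤ Y} := by
    rintro D ⟨h1, h2, h3⟩
    obtain ⟨k, α, hα, h4, h5⟩ := hD D h2 h3
    rw [Set.mem_iUnion]
    exact ⟨k, h1, h2, α, hα, h4, fun σ => (h5 σ).trans (hY _ (Nat.cast_nonneg _) h1)⟩
  have hE : ∀ k : Fin N, {D : ℤ | (D.natAbs : ℝ) ≤ X ∧ Squarefree D ∧ ∃ α ∈ T k,
        (∀ l : ℕ, l.Prime → ¬ l ∣ B → ((l : ℤ) ∣ D ↔
          ∃ v : HeightOneSpectrum (𝓞 L), Abv v l ∧ α ∈ v.asIdeal)) ∧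
        ∀ σ : L →+* ℂ, ‖σ (α : L)‖ ≤ Y}.Finite ∧
      (({D : ℤ | (D.natAbs : ℝ) ≤ X ∧ Squarefree D ∧ ∃ α ∈ T k,
        (∀ l : ℕ, l.Prime → ¬ l ∣ B → ((l : ℤ) ∣ D ↔
          ∃ v : HeightOneSpectrum (𝓞 L), Abv v l ∧ α ∈ v.asIdeal)) ∧
        ∀ σ : L →+* ℂ, ‖σ (α : L)‖ ≤ Y}.ncard : ℕ) : ℝ) ≤ 3 * (B + 1) * R := by
    intro k
    obtain ⟨E, hEdef⟩ : ∃ E : Set ℤ, E = {D : ℤ | (D.natAbs : ℝ) ≤ X ∧ Squarefree D ∧ ∃ α ∈ T k,
        (∀ l : ℕ, l.Prime → ¬ l ∣ B → ((l : ℤ) ∣ D ↔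
          ∃ v : HeightOneSpectrum (𝓞 L), Abv v l ∧ α ∈ v.asIdeal)) ∧
        ∀ σ : L →+* ℂ, ‖σ (α : L)‖ ≤ Y} := ⟨_, rfl⟩
    rw [← hEdef]
    have hch : ∀ D : ℤ, ∃ α : 𝓞 L, D ∈ E → (α ∈ T k ∧ (∀ l : ℕ, l.Prime → ¬ l ∣ B → ((l : ℤ) ∣ D ↔
          ∃ v : HeightOneSpectrum (𝓞 L), Abv v l ∧ α ∈ v.asIdeal)) ∧
        ∀ σ : L →+* ℂ, ‖σ (α : L)‖ ≤ Y) := by
      intro D
      by_cases h : D ∈ E
      · have h' := h
        rw [hEdef] at h'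
        obtain ⟨_, _, α, h1, h2, h3⟩ := h'
        exact ⟨α, fun _ => ⟨h1, h2, h3⟩⟩
      · exact ⟨0, fun h' => absurd h' h⟩
    choose a ha using hch
    have hmaps : ∀ D ∈ E, (Int.sign D, Nat.gcd D.natAbs B, a D) ∈
        ((({-1, 0, 1} : Finset ℤ) : Set ℤ) ×ˢ (((Finset.range (B + 1) : Finset ℕ) : Set ℕ) ×ˢ
          {β ∈ T k | ∀ σ : L →+* ℂ, ‖σ (β : L)‖ ≤ Y})) := by
      intro D hDE
      refine ⟨?_, ?_, (ha D hDE).1, (ha D hDE).2.2⟩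
      · rcases lt_trichotomy D 0 with h | h | h
        · simp [Int.sign_eq_neg_one_of_neg h]
        · simp [h]
        · simp [Int.sign_eq_one_of_pos h]
      · simp only [Finset.coe_range, Set.mem_Iio]
        have := Nat.gcd_le_right D.natAbs (Nat.pos_of_ne_zero hB)
        omega
    have hinj : Set.InjOn (fun D : ℤ => (Int.sign D, Nat.gcd D.natAbs B, a D)) E := by
      intro D hDE D' hDE' h
      simp only [Prod.mk.injEq] at h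
      have e1 : Squarefree D := by rw [hEdef] at hDE; exact hDE.2.1
      have e2 : Squarefree D' := by rw [hEdef] at hDE'; exact hDE'.2.1
      refine eq_of_data (B := B) e1 e2 h.1 h.2.1 ?_
      intro l hl hlB
      rw [(ha D hDE).2.1 l hl hlB, (ha D' hDE').2.1 l hl hlB, h.2.2]
    have hfinT : ((({-1, 0, 1} : Finset ℤ) : Set ℤ) ×ˢ (((Finset.range (B + 1) : Finset ℕ) : Set ℕ) ×ˢ
          {β ∈ T k | ∀ σ : L →+* ℂ, ‖σ (β : L)‖ ≤ Y})).Finite :=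
      (Finset.finite_toSet _).prod ((Finset.finite_toSet _).prod (hfin k))
    refine ⟨Set.Finite.of_injOn (fun D hD' => hmaps D hD') hinj hfinT, ?_⟩
    have hcard := Set.ncard_le_ncard_of_injOn (fun D : ℤ => (Int.sign D, Nat.gcd D.natAbs B, a D))
      (fun D hD' => hmaps D hD') hinj hfinT
    rw [Set.ncard_prod, Set.ncard_prod, Set.ncard_coe_finset, Set.ncard_coe_finset,
      Finset.card_range] at hcard
    have h3 : ({-1, 0, 1} : Finset ℤ).card = 3 := by decide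
    rw [h3] at hcard
    have hcard' : ((E.ncard : ℕ) : ℝ) ≤ ((3 * ((B + 1) *
        {β ∈ T k | ∀ σ : L →+* ℂ, ‖σ (β : L)‖ ≤ Y}.ncard) : ℕ) : ℝ) := by exact_mod_cast hcard
    refine hcard'.trans ?_
    push_cast
    rw [← mul_assoc]
    exact mul_le_mul_of_nonneg_left (hR k) (by positivity)
  have h1 := Set.ncard_le_ncard hsub (Set.finite_iUnion fun k => (hE k).1)
  have h2 := Set.ncard_iUnion_le_of_fintype (fun k : Fin N => {D : ℤ | (D.natAbs : ℝ) ≤ X ∧ Squarefree D ∧ ∃ α ∈ T k,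
        (∀ l : ℕ, l.Prime → ¬ l ∣ B → ((l : ℤ) ∣ D ↔
          ∃ v : HeightOneSpectrum (𝓞 L), Abv v l ∧ α ∈ v.asIdeal)) ∧
        ∀ σ : L →+* ℂ, ‖σ (α : L)‖ ≤ Y})
  have h3 := h1.trans h2
  have h4 : (({D : ℤ | (D.natAbs : ℝ) ≤ X ∧ Squarefree D ∧ P D}.ncard : ℕ) : ℝ) ≤
      ∑ k : Fin N, (({D : ℤ | (D.natAbs : ℝ) ≤ X ∧ Squarefree D ∧ ∃ α ∈ T k,
        (∀ l : ℕ, l.Prime → ¬ l ∣ B → ((l : ℤ) ∣ D ↔
          ∃ v : HeightOneSpectrum (𝓞 L), Abv v l ∧ α ∈ v.asIdeal)) ∧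
        ∀ σ : L →+* ℂ, ‖σ (α : L)‖ ≤ Y}.ncard : ℕ) : ℝ) := by exact_mod_cast h3
  refine h4.trans ((Finset.sum_le_sum fun k _ => (hE k).2).trans ?_)
  rw [Finset.sum_const, Finset.card_univ, Fintype.card_fin, nsmul_eq_mul]

theorem count_eq (P : ℤ → Prop) (X : ℝ) :
    {D : ℤ | (D.natAbs : ℝ) ≤ X ∧ Squarefree D ∧ P D}.ncard = count P X := by
  unfold count
  congr 1
  ext D
  simp only [Set.mem_ofPred_eq, Nat.cast_natAbs, Int.cast_abs]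
  tauto

/-- an upper bound for the number of the squarefree `D` with the property `P`, of the form needed in `EL.ratio` -/
def Bnd (f : ℤ[X]) (P : ℤ → Prop) : Prop :=
  ∃ K C2 C3 c : ℝ, 1 ≤ K ∧ 0 ≤ C2 ∧ 0 < c ∧ ∀ X : ℝ, 3 ≤ X →
    (count P X : ℝ) ≤
      C2 * (K * X ^ ((1 : ℝ) / f.natDegree)) ^ f.natDegree *
      Real.exp (Gf f (K * X ^ ((1 : ℝ) / f.natDegree)) + C3) *
      Real.log (K * X ^ ((1 : ℝ) / f.natDegree)) ^ (-(1 + c))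

theorem bnd_of (f : ℤ[X]) (hn : 0 < f.natDegree) (L : Type) [Field L] [NumberField L]
    (hdeg : Module.finrank ℚ L = f.natDegree) (C3 : ℝ) (hC3 : ∀ Y : ℝ, GN L Y ≤ Gf f Y + C3)
    (B N : ℕ) (C : ℝ)
    (T : Fin N → Set (𝓞 L)) (hB : B ≠ 0) (hC : 0 < C) (P : ℤ → Prop)
    (hD : ∀ D : ℤ, Squarefree D → P D →
      ∃ k, ∃ α ∈ T k, (∀ l : ℕ, l.Prime → ¬ l ∣ B → ((l : ℤ) ∣ D ↔
          ∃ v : HeightOneSpectrum (𝓞 L), Abv v l ∧ α ∈ v.asIdeal)) ∧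
        ∀ σ : L →+* ℂ, ‖σ (α : L)‖ ≤ C * (D.natAbs : ℝ) ^ ((1 : ℝ) / f.natDegree))
    (c C1 : ℝ) (hc : 0 < c)
    (hcore : ∀ k, ∀ Y : ℝ, 3 ≤ Y → {β ∈ T k | ∀ σ : L →+* ℂ, ‖σ (β : L)‖ ≤ Y}.Finite ∧
      (({β ∈ T k | ∀ σ : L →+* ℂ, ‖σ (β : L)‖ ≤ Y}.ncard : ℕ) : ℝ) ≤
      C1 * Y ^ Module.finrank ℚ L * Real.exp (GN L Y) * Real.log Y ^ (-(1 + c))) :
    Bnd f P := by
  have hn0 : (0 : ℝ) < f.natDegree := by exact_mod_cast hn
  refine ⟨max C 3, N * (3 * (B + 1) * max C1 0), C3, c, (by norm_num : (1 : ℝ) ≤ 3).trans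
    (le_max_right _ _), by positivity, hc, fun X hX => ?_⟩
  set K : ℝ := max C 3 with hK
  have hK3 : 3 ≤ K := le_max_right _ _
  set Y : ℝ := K * X ^ ((1 : ℝ) / f.natDegree) with hY
  have hX1 : 1 ≤ X ^ ((1 : ℝ) / f.natDegree) := Real.one_le_rpow (by linarith) (by positivity)
  have hY3 : 3 ≤ Y := by nlinarith
  have hlY : 0 < Real.log Y := Real.log_pos (by linarith)
  have h := count_gen f.natDegree L B N C T hB P hD X Y (fun m hm hmX => by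
    rw [hY]
    refine mul_le_mul (le_max_left _ _) ?_ (by positivity) (by positivity)
    exact Real.rpow_le_rpow hm hmX (by positivity)) (fun k => (hcore k Y hY3).1)
    (max C1 0 * Y ^ f.natDegree * Real.exp (Gf f Y + C3) * Real.log Y ^ (-(1 + c))) (fun k => by
      refine (hcore k Y hY3).2.trans ?_
      rw [hdeg]
      have h5 := hC3 Y
      gcongr
      exact le_max_left _ _)
  rw [count_eq] at h
  refine h.trans (le_of_eq ?_)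
  ring

theorem count_mono' {P Q : ℤ → Prop} (h : ∀ D : ℤ, Squarefree D → P D → Q D) (X : ℝ) :
    count P X ≤ count Q X := by
  rw [← count_eq, ← count_eq]
  exact Set.ncard_le_ncard (fun D hD => ⟨hD.1, hD.2.1, h D hD.2.1 hD.2.2⟩)
    (Pool.Agent.Q51.EL.fin_sq X _)

theorem Bnd.mono {f : ℤ[X]} {P Q : ℤ → Prop} (h : ∀ D : ℤ, Squarefree D → P D → Q D)
    (hQ : Bnd f Q) : Bnd f P := by
  obtain ⟨K, C2, C3, c, h1, h2, h3, h4⟩ := hQ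
  refine ⟨K, C2, C3, c, h1, h2, h3, fun X hX => le_trans ?_ (h4 X hX)⟩
  exact_mod_cast count_mono' h X

theorem count_or {P Q : ℤ → Prop} (X : ℝ) :
    (count (fun D => P D ∨ Q D) X : ℝ) ≤ (count P X : ℝ) + (count Q X : ℝ) := by
  rw [← count_eq, ← count_eq, ← count_eq]
  have h1 : {D : ℤ | (D.natAbs : ℝ) ≤ X ∧ Squarefree D ∧ (P D ∨ Q D)} ⊆
      {D : ℤ | (D.natAbs : ℝ) ≤ X ∧ Squarefree D ∧ P D} ∪
      {D : ℤ | (D.natAbs : ℝ) ≤ X ∧ Squarefree D ∧ Q D} := by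
    rintro D ⟨a, b, h | h⟩
    · exact Or.inl ⟨a, b, h⟩
    · exact Or.inr ⟨a, b, h⟩
  have h2 := (Set.ncard_le_ncard h1 ((Pool.Agent.Q51.EL.fin_sq X _).union
    (Pool.Agent.Q51.EL.fin_sq X _))).trans (Set.ncard_union_le _ _)
  exact_mod_cast h2

/-- `P` has proportion `O((log X) ^ (-δ))` among the `D` with `E` -/
def Few (E P : ℤ → Prop) : Prop :=
  ∃ δ C : ℝ, 0 < δ ∧ 0 ≤ C ∧ ∀ X : ℝ, 3 ≤ X →
    (count P X : ℝ) ≤ C * Real.log X ^ (-δ) * (count E X : ℝ)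

lemma one_le_log {X : ℝ} (hX : 3 ≤ X) : 1 ≤ Real.log X := by
  have h1 : Real.exp 1 ≤ 3 := by linarith [Real.exp_one_lt_d9]
  calc (1 : ℝ) = Real.log (Real.exp 1) := (Real.log_exp 1).symm
    _ ≤ Real.log X := Real.log_le_log (Real.exp_pos 1) (h1.trans hX)

theorem Few.or {E P Q : ℤ → Prop} (hP : Few E P) (hQ : Few E Q) : Few E (fun D => P D ∨ Q D) := by
  obtain ⟨δ1, C1, hδ1, hC1, h1⟩ := hP
  obtain ⟨δ2, C2, hδ2, hC2, h2⟩ := hQ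
  refine ⟨min δ1 δ2, C1 + C2, lt_min hδ1 hδ2, add_nonneg hC1 hC2, fun X hX => ?_⟩
  have hlog := one_le_log hX
  have e1 : Real.log X ^ (-δ1) ≤ Real.log X ^ (-(min δ1 δ2)) :=
    Real.rpow_le_rpow_of_exponent_le hlog (neg_le_neg (min_le_left _ _))
  have e2 : Real.log X ^ (-δ2) ≤ Real.log X ^ (-(min δ1 δ2)) :=
    Real.rpow_le_rpow_of_exponent_le hlog (neg_le_neg (min_le_right _ _))
  have hE : (0 : ℝ) ≤ (count E X : ℝ) := Nat.cast_nonneg _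
  calc (count (fun D => P D ∨ Q D) X : ℝ) ≤ (count P X : ℝ) + (count Q X : ℝ) := count_or X
    _ ≤ C1 * Real.log X ^ (-δ1) * (count E X : ℝ) + C2 * Real.log X ^ (-δ2) * (count E X : ℝ) :=
        add_le_add (h1 X hX) (h2 X hX)
    _ ≤ C1 * Real.log X ^ (-(min δ1 δ2)) * (count E X : ℝ) +
        C2 * Real.log X ^ (-(min δ1 δ2)) * (count E X : ℝ) := by gcongr
    _ = _ := by ring

theorem Few.mono {E P Q : ℤ → Prop} (h : ∀ D : ℤ, Squarefree D → P D → Q D) (hQ : Few E Q) :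
    Few E P := by
  obtain ⟨δ, C, hδ, hC, h1⟩ := hQ
  refine ⟨δ, C, hδ, hC, fun X hX => le_trans ?_ (h1 X hX)⟩
  exact_mod_cast count_mono' h X

theorem Few.none {E P : ℤ → Prop} (h : ∀ D : ℤ, Squarefree D → ¬ P D) : Few E P := by
  refine ⟨1, 0, one_pos, le_rfl, fun X hX => ?_⟩
  have h1 : count P X = 0 := by
    rw [← count_eq]
    have : {D : ℤ | (D.natAbs : ℝ) ≤ X ∧ Squarefree D ∧ P D} = ∅ := by
      ext D
      simp only [Set.mem_ofPred_eq, Set.mem_empty_iff_false, iff_false]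
      rintro ⟨-, h2, h3⟩
      exact h D h2 h3
    rw [this, Set.ncard_empty]
  rw [h1]
  simp

theorem Few.finset {E : ℤ → Prop} {P : ℕ → ℤ → Prop} (s : Finset ℕ) (h : ∀ q ∈ s, Few E (P q)) :
    Few E (fun D => ∃ q ∈ s, P q D) := by
  classical
  induction s using Finset.induction_on with
  | empty => exact Few.none (fun D _ h => by simp at h)
  | insert q s hq ih =>
    refine Few.mono (Q := fun D => P q D ∨ ∃ q ∈ s, P q D) ?_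
      ((h q (mem_insert_self _ _)).or (ih fun q' h' => h q' (mem_insert_of_mem h')))
    rintro D - ⟨q', hq', hP⟩
    rcases mem_insert.mp hq' with h1 | h1
    · subst h1
      exact Or.inl hP
    · exact Or.inr ⟨q', h1, hP⟩

/-- from an absolute bound to the proportion -/
theorem few_of (f : ℤ[X]) (hf : Irreducible (f.map (Int.castRingHom ℚ))) (hn : 2 ≤ f.natDegree)
    (m : ℕ) (hm : 0 < m) {E P : ℤ → Prop} (hE : ∀ D : ℤ, E D ↔ Pool.Agent.Q51.EB.ELSM f m D)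
    (hP : Bnd f P) : Few E (fun D => E D ∧ P D) := by
  by_cases hex : ∃ D : ℤ, Squarefree D ∧ E D
  · obtain ⟨D0, hD0, hD0E⟩ := hex
    obtain ⟨c4, X0, hc4, hl⟩ := Pool.Agent.Q51.EB.t_lowm f hf m hm D0 hD0 ((hE D0).mp hD0E)
    obtain ⟨K, C2, C3, c, hK, hC2, hc, hS⟩ := Bnd.mono
      (P := fun D => E D ∧ P D) (fun D _ h => h.2) hP
    obtain ⟨δ, C, hδ, hC, hr⟩ := Pool.Agent.Q51.EL.ratio
      (fun X => (count (fun D => E D ∧ P D) X : ℝ))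
      (fun X => (count E X : ℝ))
      (Gf f) f.natDegree hn K C2 C3 c c4 X0 hK hC2 hc hc4
      (fun X => by positivity) (fun X => by
        exact_mod_cast count_mono' (P := fun D => E D ∧ P D) (Q := E) (fun D _ h => h.1) X)
      (fun Y Z h => Gf_mono f h) hS (fun X hX => by
        have h1 := hl X hX
        have h2 : {D : ℤ | (D.natAbs : ℝ) ≤ X ∧ Squarefree D ∧ Pool.Agent.Q51.EB.ELSM f m D}.ncard =
            count E X := by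
          rw [count_eq]
          congr 1
          funext D
          exact propext (hE D).symm
        rwa [h2] at h1)
    exact ⟨δ, C, hδ, hC, hr⟩
  · exact Few.none (fun D hD h => hex ⟨D, hD, h.1⟩)

end Pool.Agent.Q51.SY
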