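import Pool.Agent.Q51.SY.Main

/-! # Project SY: the main theorem -/

set_option autoImplicit false

namespace Pool.Agent.Q51.SY

open Polynomial NumberField IsDedekindDomain Finset FF
open Pool.Agent.Y157.PS (Dec Ine IsU geomPro)
open Pool.Agent.Q51.SZ
open Pool.Agent.Q51.EL (Abv GN Gf Setup CurvePt Sel Good S_CORE)
open Pool.Agent.Q51.SE (count Point AdelicPoint Orthogonal RootsOfUnityCondition numSoluble)

/-- The bound for the 2-Selmer sets (in the proof of `EL.main_of`). -/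
theorem bnd_sel {f : ℤ[X]} (hf : Irreducible (f.map (Int.castRingHom ℚ)))
    (hev : Even f.natDegree) (h6 : 6 ≤ f.natDegree) : Bnd f (fun D => Sel f D) := by
  have : Fact (Irreducible (f.map (Int.castRingHom ℚ))) := ⟨hf⟩
  set L := AdjoinRoot (f.map (Int.castRingHom ℚ)) with hL
  have hfd : FiniteDimensional ℚ L := PowerBasis.finite (AdjoinRoot.powerBasis hf.ne_zero)
  have : CharZero L := algebraRat.charZero L
  have : NumberField L := { to_charZero := inferInstance, to_finiteDimensional := hfd }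
  set θ : L := AdjoinRoot.root (f.map (Int.castRingHom ℚ)) with hθ
  have hnd : (f.map (Int.castRingHom ℚ)).natDegree = f.natDegree :=
    natDegree_map_eq_of_injective (Int.castRingHom ℚ).injective_int f
  have hset : Setup f L θ := by
    refine ⟨hf, ?_, ?_⟩
    · have h1 := AdjoinRoot.eval₂_root (f.map (Int.castRingHom ℚ))
      rw [eval₂_map] at h1
      rw [aeval_def, ← h1]
      congr 1
    · rw [(AdjoinRoot.powerBasis hf.ne_zero).finrank, AdjoinRoot.powerBasis_dim, hnd]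
  have hint : IsIntegral ℤ ((f.leadingCoeff : L) * θ) := by
    have h1 : IsIntegral ℤ (f.leadingCoeff • θ) := isIntegral_leadingCoeff_smul f θ hset.root
    rwa [zsmul_eq_mul] at h1
  set t : 𝓞 L := ⟨(f.leadingCoeff : L) * θ, hint⟩ with ht
  obtain ⟨B, C1, hB, hC1, hD⟩ := Pool.Agent.Q51.EL.t_desc f L θ hset hev (by omega) t rfl
  obtain ⟨c, C2, hc, hcore⟩ := Pool.Agent.Q51.EL.t_core L (by rw [hset.deg]; omega) B hB
  obtain ⟨C3, hC3⟩ := Pool.Agent.Q91.EL.gg f L θ hset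
  have hα : ∀ D : ℤ, Squarefree D → Sel f D → ∃ α : 𝓞 L, α ≠ 0 ∧ Good B t α ∧
      IsSquare (((D * f.leadingCoeff : ℤ) : ℚ) * Algebra.norm ℚ (α : L)) ∧
      ∀ σ : L →+* ℂ, ‖σ (α : L)‖ ≤ C1 * (D.natAbs : ℝ) ^ ((1 : ℝ) / f.natDegree) := by
    rintro D hDs ⟨d, hcop, hsq, -, hp⟩
    have haev : aeval θ d = AdjoinRoot.mk (f.map (Int.castRingHom ℚ)) d := by
      rw [hθ]; exact AdjoinRoot.aeval_eq d
    refine hD D hDs ⟨d, ?_, ?_, hp⟩
    · rw [haev]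
      intro h0
      rw [AdjoinRoot.mk_eq_zero] at h0
      have := hcop.isUnit_of_dvd' dvd_rfl h0
      exact hf.not_isUnit this
    · rw [haev]; exact hsq
  choose! A hA0 hAG hAsq hAσ using hα
  have hn0 : (0 : ℝ) < f.natDegree := by exact_mod_cast (by omega : 0 < f.natDegree)
  set K : ℝ := max C1 3 with hK
  have hK3 : 3 ≤ K := le_max_right _ _
  refine ⟨K, max C2 0, C3, c, by linarith, le_max_right _ _, hc, ?_⟩
  intro X hX
  rw [← count_eq]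
  set Y : ℝ := K * X ^ ((1 : ℝ) / f.natDegree) with hY
  have hX1 : 1 ≤ X ^ ((1 : ℝ) / f.natDegree) :=
    Real.one_le_rpow (by linarith) (by positivity)
  have hY3 : 3 ≤ Y := by nlinarith
  obtain ⟨hfin, hcard⟩ := hcore {α | Good B t α}
    (fun l hl hlB => Pool.Agent.Q91.EL.ty L B t l hl hlB) Y hY3
  have hinj : ({D : ℤ | (D.natAbs : ℝ) ≤ X ∧ Squarefree D ∧ Sel f D}).ncard ≤
      ({β ∈ {α | Good B t α} | ∀ σ : L →+* ℂ, ‖σ (β : L)‖ ≤ Y}).ncard := by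
    apply Set.ncard_le_ncard_of_injOn A _ _ hfin
    · rintro D ⟨hDX, hDs, hDS⟩
      refine ⟨hAG D hDs hDS, fun σ => (hAσ D hDs hDS σ).trans ?_⟩
      rw [hY]
      apply mul_le_mul (le_max_left _ _) _ (by positivity) (by positivity)
      exact Real.rpow_le_rpow (by positivity) hDX (by positivity)
    · rintro D ⟨hDX, hDs, hDS⟩ D' ⟨hDX', hDs', hDS'⟩ hAA
      have h1 := hAsq D hDs hDS
      have h2 := hAsq D' hDs' hDS'
      have hAA' : A D = A D' := hAA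
      rw [← hAA'] at h2
      have hN0 : Algebra.norm ℚ ((A D : 𝓞 L) : L) ≠ 0 := by
        rw [Algebra.norm_ne_zero_iff]
        exact_mod_cast (hA0 D hDs hDS)
      have ha0 : ((f.leadingCoeff : ℤ) : ℚ) ≠ 0 := by
        have : f.leadingCoeff ≠ 0 := by
          rw [Ne, leadingCoeff_eq_zero]
          rintro rfl
          simp at h6
        exact_mod_cast this
      apply Pool.Agent.Q51.EL.sqf_eq hDs hDs'
      obtain ⟨u, hu⟩ := h1
      obtain ⟨w, hw⟩ := h2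
      refine ⟨u * w / ((f.leadingCoeff : ℤ) * Algebra.norm ℚ ((A D : 𝓞 L) : L)), ?_⟩
      field_simp
      have h3 : ((D * D' : ℤ) : ℚ) * (((f.leadingCoeff : ℤ) : ℚ) ^ 2 *
        Algebra.norm ℚ ((A D : 𝓞 L) : L) ^ 2) = (u * u) * (w * w) := by
        rw [← hu, ← hw]; push_cast; ring
      linear_combination h3
  have hGN : GN L Y ≤ Gf f Y + C3 := hC3 Y
  have hlY : 0 < Real.log Y := Real.log_pos (by linarith)
  calc ((({D : ℤ | (D.natAbs : ℝ) ≤ X ∧ Squarefree D ∧ Sel f D}).ncard : ℕ) : ℝ)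
      ≤ (({β ∈ {α | Good B t α} | ∀ σ : L →+* ℂ, ‖σ (β : L)‖ ≤ Y}).ncard : ℝ) := by
        exact_mod_cast hinj
    _ ≤ C2 * Y ^ Module.finrank ℚ L * Real.exp (GN L Y) * Real.log Y ^ (-(1 + c)) := hcard
    _ ≤ (max C2 0) * Y ^ f.natDegree * Real.exp (Gf f Y + C3) *
        Real.log Y ^ (-(1 + c)) := by
        rw [hset.deg]
        gcongr
        exact le_max_left _ _

/-- a rational point of `C_D` for even `m` gives one of the curve for `m = 2` -/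
theorem pt_two {f : ℤ[X]} {m : ℕ} (hm : 2 ∣ m) {D : ℤ} (h : Nonempty (Point f m D ℚ)) :
    CurvePt f D ℚ := by
  obtain ⟨⟨x, w, y, h1, h2⟩⟩ := h
  refine ⟨x, w, y ^ (m / 2), h1, ?_⟩
  rw [← pow_mul, Nat.div_mul_cancel hm, h2]
  rfl

/-- The bound for the points and sections. -/
theorem bnd_main {f : ℤ[X]} (hf : Irreducible (f.map (Int.castRingHom ℚ))) {m : ℕ}
    (hm : 0 < m) (hmn : m ∣ f.natDegree) (h : (Even m ∧ 6 ≤ f.natDegree) ∨
      ∃ q : ℕ, q.Prime ∧ q ≠ 2 ∧ q ∣ m ∧ RootsOfUnityCondition f q) :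
    ∃ P1 P2 : ℤ → Prop, Bnd f P1 ∧ Bnd f P2 ∧ ∀ D : ℤ, Squarefree D →
      (Nonempty (Point f m D ℚ) ∨ HasSec f m D ℚ) → P1 D ∨ P2 D := by
  rcases h with ⟨hev, h6⟩ | ⟨q, hq, hq2, hqm, hrou⟩
  · have hevn : Even f.natDegree := by
      rw [even_iff_two_dvd] at hev ⊢
      exact hev.trans hmn
    refine ⟨fun D => Sel f D, fun D => Pool.Agent.Q161.SX.HasSec.{0, 0} f D,
      bnd_sel hf hevn h6, bnd_sec2 hf hevn h6, ?_⟩
    have hpt : ∀ D : ℤ, Nonempty (Point f m D ℚ) → Sel f D := fun D hP =>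
      Pool.Agent.Q241.EL.lift f hf (by omega) D (pt_two (even_iff_two_dvd.mp hev) hP)
    rintro D hD (hP | ⟨F, Ω, i1, i2, i3, i4, i5, i6, i7, i8, U, x, y, hU, hxy, ⟨G⟩⟩)
    · exact Or.inl (hpt D hP)
    · by_cases hx : Transcendental ℚ x
      · right
        refine ⟨F, Ω, i1, i2, i3, i4, i5, i6, i7, i8, U, x, y ^ (m / 2), hU, ⟨G⟩, ?_, hx⟩
        rw [← pow_mul, Nat.div_mul_cancel (even_iff_two_dvd.mp hev), hxy]
      · exact Or.inl (hpt D (curvePt_of_alg hm hD.ne_zero U G x y hxy hx))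
  · have hnd : (f.map (Int.castRingHom ℚ)).natDegree = f.natDegree :=
      natDegree_map_eq_of_injective (Int.castRingHom ℚ).injective_int f
    have hnpos : 0 < f.natDegree := by
      rw [← hnd]; exact hf.natDegree_pos
    have hq3 : 3 ≤ q := by
      have := hq.two_le
      omega
    have hqn : q ∣ f.natDegree := hqm.trans hmn
    have hn3 : 3 ≤ f.natDegree := hq3.trans (Nat.le_of_dvd hnpos hqn)
    obtain ⟨B, -, -, hgd⟩ := t_gd f hf q 1 hq.ne_zero one_ne_zero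
    have hBne : B ≠ 0 := (hgd (AlgebraicClosure ℚ)).ne
    obtain ⟨A, _, _, _⟩ := exists_closure
    refine ⟨fun D => Nonempty (Point f m D ℚ), fun D => ∃ a, KSys f q A D B ⊤ a,
      bnd_pts hf hq hq2 hqm hmn hrou, bnd_ksys hf hq hq2 hqn hrou A hBne, ?_⟩
    rintro D hD (hP | ⟨F, Ω, i1, i2, i3, i4, i5, i6, i7, i8, U, x, y, hU, hxy, ⟨G⟩⟩)
    · exact Or.inl hP
    · by_cases hx : Transcendental ℚ x
      · exact Or.inr (sec_ksys hq hqn hn3 hqm hgd hD U hU G x y hx hxy)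
      · exact Or.inl (curvePt_of_alg hm hD.ne_zero U G x y hxy hx)

theorem bnd_pro {f : ℤ[X]} (hf : Irreducible (f.map (Int.castRingHom ℚ))) {q : ℕ} (hq : q.Prime)
    (hq2 : q ≠ 2) (hqn : q ∣ f.natDegree) (hrou : RootsOfUnityCondition f q) :
    Bnd f (fun D => Squarefree D ∧ HasPro f q D ℚ) := by
  have hnd : (f.map (Int.castRingHom ℚ)).natDegree = f.natDegree :=
    natDegree_map_eq_of_injective (Int.castRingHom ℚ).injective_int f
  have hnpos : 0 < f.natDegree := by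
    rw [← hnd]; exact hf.natDegree_pos
  have hq3 : 3 ≤ q := by
    have := hq.two_le
    omega
  have hn3 : 3 ≤ f.natDegree := hq3.trans (Nat.le_of_dvd hnpos hqn)
  obtain ⟨B, -, -, hgd⟩ := t_gd f hf q 1 hq.ne_zero one_ne_zero
  have hBne : B ≠ 0 := (hgd (AlgebraicClosure ℚ)).ne
  obtain ⟨A, _, _, _⟩ := exists_closure
  exact Bnd.mono (Q := fun D => ∃ a, KSys f q A D B ⊤ a)
    (fun D _ h => pro_ksys hq hqn hn3 hgd h.1 h.2) (bnd_ksys hf hq hq2 hqn hrou A hBne)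

/-- The main theorem. -/
theorem main {f : ℤ[X]} (hf : Irreducible (f.map (Int.castRingHom ℚ))) {m : ℕ} (hm : 2 ≤ m)
    (hmn : m ∣ f.natDegree) (h : (Even m ∧ 6 ≤ f.natDegree) ∨
      ∃ q : ℕ, q.Prime ∧ q ≠ 2 ∧ q ∣ m ∧ RootsOfUnityCondition f q) :
    Few (fun D => Nonempty (AdelicPoint f m D)) (fun D => Nonempty (AdelicPoint f m D) ∧
      (Nonempty (Point f m D ℚ) ∨ HasSec f m D ℚ ∨
        ∃ q : ℕ, q.Prime ∧ q ≠ 2 ∧ q ∣ m ∧ RootsOfUnityCondition f q ∧ HasPro f q D ℚ)) := by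
  classical
  have hnd : (f.map (Int.castRingHom ℚ)).natDegree = f.natDegree :=
    natDegree_map_eq_of_injective (Int.castRingHom ℚ).injective_int f
  have hnpos : 0 < f.natDegree := by
    rw [← hnd]; exact hf.natDegree_pos
  have hm0 : 0 < m := by omega
  have hn2 : 2 ≤ f.natDegree := hm.trans (Nat.le_of_dvd hnpos hmn)
  have hels : ∀ D : ℤ, Nonempty (AdelicPoint f m D) ↔ Pool.Agent.Q51.EB.ELSM f m D := by
    intro D
    constructor
    · rintro ⟨P⟩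
      refine ⟨⟨P.re.x, P.re.w, P.re.y, P.re.ne, P.re.eq⟩, fun p hp => ?_⟩
      exact ⟨(P.pa ⟨p, hp.out⟩).x, (P.pa ⟨p, hp.out⟩).w, (P.pa ⟨p, hp.out⟩).y,
        (P.pa ⟨p, hp.out⟩).ne, (P.pa ⟨p, hp.out⟩).eq⟩
    · rintro ⟨⟨x, w, y, h1, h2⟩, hp⟩
      choose x' w' y' h3 h4 using fun p : Nat.Primes => hp (p : ℕ)
      exact ⟨⟨⟨x, w, y, h1, h2⟩, fun p => ⟨x' p, w' p, y' p, h3 p, h4 p⟩⟩⟩
  obtain ⟨P1, P2, hP1, hP2, hP⟩ := bnd_main hf hm0 hmn h
  have f1 := few_of f hf hn2 m hm0 hels hP1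
  have f2 := few_of f hf hn2 m hm0 hels hP2
  have f3 := Few.finset (E := fun D => Nonempty (AdelicPoint f m D))
    (P := fun q D => Nonempty (AdelicPoint f m D) ∧ (q ≠ 2 ∧ RootsOfUnityCondition f q ∧
      Squarefree D ∧ HasPro f q D ℚ)) m.primeFactors (fun q hq => by
      have hqp := Nat.prime_of_mem_primeFactors hq
      have hqm := Nat.dvd_of_mem_primeFactors hq
      by_cases hc : q ≠ 2 ∧ RootsOfUnityCondition f q
      · exact Few.mono (fun D _ hD => ⟨hD.1, hD.2.2.2⟩)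
          (few_of f hf hn2 m hm0 hels (bnd_pro hf hqp hc.1 (hqm.trans hmn) hc.2))
      · exact Few.none (fun D _ hD => hc ⟨hD.2.1, hD.2.2.1⟩))
  refine Few.mono ?_ ((f1.or f2).or f3)
  rintro D hD ⟨hE, hPt | hSec | ⟨q, hq, hq2, hqm, hrou, hPro⟩⟩
  · rcases hP D hD (Or.inl hPt) with h1 | h1
    · exact Or.inl (Or.inl ⟨hE, h1⟩)
    · exact Or.inl (Or.inr ⟨hE, h1⟩)
  · rcases hP D hD (Or.inr hSec) with h1 | h1
    · exact Or.inl (Or.inl ⟨hE, h1⟩)
    · exact Or.inl (Or.inr ⟨hE, h1⟩)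
  · exact Or.inr ⟨q, Nat.mem_primeFactors.mpr ⟨hq, hqm, by omega⟩, hE, hq2, hrou, hD, hPro⟩

/-- The lower bound for the number of the soluble twists. -/
theorem lower {f : ℤ[X]} (hf : Irreducible (f.map (Int.castRingHom ℚ))) {m : ℕ} (hm : 0 < m)
    (hex : ∃ D : ℤ, Squarefree D ∧ Nonempty (AdelicPoint f m D)) :
    ∃ c X₀ : ℝ, 0 < c ∧ ∀ X : ℝ, X₀ ≤ X →
      c * X / Real.log X * Real.exp (Pool.Agent.Q51.SE.sumRootPrimes f X) ≤ numSoluble f m X := by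
  classical
  obtain ⟨D0, hD0, ⟨P0⟩⟩ := hex
  have h0 : Pool.Agent.Q51.EB.ELSM f m D0 := by
    refine ⟨⟨P0.re.x, P0.re.w, P0.re.y, P0.re.ne, P0.re.eq⟩, fun p hp => ?_⟩
    exact ⟨(P0.pa ⟨p, hp.out⟩).x, (P0.pa ⟨p, hp.out⟩).w, (P0.pa ⟨p, hp.out⟩).y,
      (P0.pa ⟨p, hp.out⟩).ne, (P0.pa ⟨p, hp.out⟩).eq⟩
  obtain ⟨c, X0, hc, h4⟩ := Pool.Agent.Q51.EB.t_lowm f hf m hm D0 hD0 h0
  refine ⟨c, X0, hc, fun X hX => ?_⟩
  have h5 := h4 X hX
  rw [count_eq] at h5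
  have h7 : (count (Pool.Agent.Q51.EB.ELSM f m) X : ℝ) ≤ numSoluble f m X := by
    unfold numSoluble
    refine Nat.cast_le.mpr (count_mono' (fun D _ hD => ?_) X)
    obtain ⟨⟨x, w, y, h1, h2⟩, hp⟩ := hD
    choose x' w' y' h3 h4 using fun p : Nat.Primes => hp (p : ℕ)
    exact ⟨⟨⟨x, w, y, h1, h2⟩, fun p => ⟨x' p, w' p, y' p, h3 p, h4 p⟩⟩⟩
  rw [Pool.Agent.Q91.EL.Gf_eq] at h5
  have h6 : Pool.Agent.Q51.SE.sumRootPrimes f X =
      ∑ l ∈ (Pool.Agent.Q51.EL.pr X).filter (fun l : ℕ => ∃ r : ℤ, (l : ℤ) ∣ f.eval r),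
        (1 : ℝ) / l := by
    have hs : Pool.Agent.Q51.SE.rootPrimes f X = ((Pool.Agent.Q51.EL.pr X).filter
        (fun l : ℕ => ∃ r : ℤ, (l : ℤ) ∣ f.eval r) : Finset ℕ) := by
      ext l
      simp only [Pool.Agent.Q51.SE.rootPrimes, Set.mem_ofPred_eq, Finset.coe_filter,
        Pool.Agent.Q51.EL.pr, Finset.mem_filter, Finset.mem_Icc]
      constructor
      · rintro ⟨ha, hb, hc⟩
        exact ⟨⟨⟨ha.one_le, Nat.le_floor hb⟩, ha⟩, hc⟩
      · rintro ⟨⟨⟨ha, hb⟩, hc⟩, hd⟩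
        exact ⟨hc, (Nat.le_floor_iff' hc.ne_zero).1 hb, hd⟩
    unfold Pool.Agent.Q51.SE.sumRootPrimes
    rw [hs]
    exact Finset.tsum_subtype _ (fun l : ℕ => (1 : ℝ) / l)
  rw [h6]
  exact h5.trans h7

end Pool.Agent.Q51.SY
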