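import Pool.Agent.Q51.SY.Count
import Pool.Agent.Q161.SX.All
import Pool.Agent.Q161.SH.SX
import Pool.Agent.Q51.EL.All

/-!
# Project SY (helper51): sections over `ℚ` for 100 percent of the everywhere locally soluble superelliptic twists

`f ∈ ℤ[X]` irreducible of degree `n`, `m ∣ n`, `3 ≤ m`, `C_D : D y ^ m = F(x, w)`; `m` even and `n ≥ 6`, or an odd
prime `q ∣ m` and the condition on the roots of unity.
-/

set_option autoImplicit false

namespace Pool.Agent.Q51.SY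

open Polynomial NumberField IsDedekindDomain Finset FF
open Pool.Agent.Y157.PS (Dec Ine IsU geomPro)
open Pool.Agent.Q51.SZ
open Pool.Agent.Q51.EL (Abv GN Gf Setup CurvePt Sel)
open Pool.Agent.Q51.SE (count Point AdelicPoint Orthogonal RootsOfUnityCondition)

/-- There is a section over `K` of the fundamental group of an open subcurve of `D y ^ m = F(x, w)`, or of a smooth
curve over `K` that dominates it. -/
def HasSec (f : ℤ[X]) (m : ℕ) (D : ℤ) (K : Type) [Field K] : Prop :=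
  ∃ (F Ω : Type) (_ : Field F) (_ : Field Ω) (_ : Algebra K F) (_ : Algebra F Ω) (_ : Algebra K Ω)
    (_ : IsScalarTower K F Ω) (_ : IsAlgClosed Ω) (_ : Algebra.IsAlgebraic F Ω)
    (U : Set (ValuationSubring F)) (x y : F), (∀ O ∈ U, ∀ c : K, algebraMap K F c ∈ O) ∧
    (D : F) * y ^ m = aeval x f ∧ Nonempty (Pool.Agent.W620.SC.GSection K F Ω U)

/-- There is a section over `K` of the geometrically pro-`q` fundamental group of `D y ^ q = f(x)`. -/
def HasPro (f : ℤ[X]) (q : ℕ) (D : ℤ) (K : Type) [Field K] : Prop :=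
  ∃ (F Ω : Type) (_ : Field F) (_ : Field Ω) (_ : Algebra K F) (_ : Algebra F Ω) (_ : Algebra K Ω)
    (_ : IsScalarTower K F Ω) (_ : IsAlgClosed Ω) (_ : Algebra.IsAlgebraic F Ω) (x y : F)
    (M : IntermediateField F Ω)
    (S : (algebraicClosure K Ω ≃ₐ[K] algebraicClosure K Ω) →* (M ≃ₐ[F] M)),
    Transcendental K x ∧ (D : F) * y ^ q = aeval x f ∧
    IntermediateField.adjoin K {x, y} = (⊤ : IntermediateField K F) ∧ geomPro q K F Ω ≤ M ∧
    Continuous S ∧ ∀ σ (c : algebraicClosure K Ω) (z : M), (z : Ω) = (c : Ω) →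
      (S σ z : Ω) = (σ c : Ω)

/-! ### Odd primes -/

theorem t_arq : S_ARQ := arq t_gd t_inv t_plc t_fib t_del t_vlb t_typ
  (rel (Pool.Agent.Q166.SZ.apx t_inv)) Pool.Agent.Q51.SE.clq Pool.Agent.Q26.SE.unq

theorem bnd_ksys {f : ℤ[X]} (hf : Irreducible (f.map (Int.castRingHom ℚ))) {q : ℕ} (hq : q.Prime)
    (hq2 : q ≠ 2) (hqn : q ∣ f.natDegree) (hrou : RootsOfUnityCondition f q) (A : Type) [Field A]
    [Algebra ℚ A] [IsAlgClosure ℚ A] {B0 : ℕ} (hB0 : B0 ≠ 0) :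
    Bnd f (fun D => ∃ a, KSys f q A D B0 ⊤ a) := by
  obtain ⟨L, i1, i2, θ, hset⟩ := Pool.Agent.Q251.SX.exists_L f hf
  obtain ⟨B, C, N, T, hB, hC, hTy, hD⟩ := t_arq f L θ hset q hq hqn A B0 hB0
  obtain ⟨B2, hB2, hzeta⟩ := Pool.Agent.Q51.SE.zeta f q hq hrou L θ hset
  obtain ⟨c, C1, hc, hcore⟩ := Pool.Agent.Q51.SE.t_coreq L q hq hq2 (by rw [hset.deg]; exact hqn)
    (B * B2) (mul_ne_zero hB hB2)
  obtain ⟨C3, hC3⟩ := Pool.Agent.Q91.EL.gg f L θ hset
  have hn0 : 0 < f.natDegree := by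
    rw [← hset.deg]
    exact Module.finrank_pos
  refine bnd_of f hn0 L hset.deg C3 hC3 B N C T hB hC _ hD c C1 hc fun k Y hY => ?_
  exact hcore (T k) (fun l hl hlB => ⟨(hTy k l hl fun h => hlB (h.mul_right _)).1,
    (hTy k l hl fun h => hlB (h.mul_right _)).2, hzeta l hl fun h => hlB (h.mul_left _)⟩) Y hY

theorem ksys_top {f : ℤ[X]} {q : ℕ} (hq : q.Prime) {A : Type} [Field A]
    [Algebra ℚ A] [IsAlgClosure ℚ A] {B : ℕ} (hgd : Gd A f q B) {D : ℤ} (hD : D ≠ 0)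
    (h : ∃ (N : IntermediateField ℚ A) (M : Type) (_ : Field M)
      (S : SecH f q A M N.fixingSubgroup),
      FiniteDimensional ℚ N ∧ Module.finrank ℚ N = Module.finrank ℚ ℚ ∧ S.Good D B) :
    ∃ a, KSys f q A D B ⊤ a := by
  obtain ⟨N, M, _, S, hN, hfin, hS⟩ := h
  have h1 : N = ⊥ := by
    rw [← IntermediateField.finrank_eq_one_iff, hfin, Module.finrank_self]
  subst h1
  obtain ⟨a, ha⟩ := t_ksy f q B A hgd hq ⊥ M S D hD hS
  rw [IntermediateField.fixingSubgroup_bot] at ha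
  exact ⟨a, ha⟩

theorem sec_ksys {f : ℤ[X]} {q m : ℕ} (hq : q.Prime) (hqf : q ∣ f.natDegree)
    (hn : 3 ≤ f.natDegree) (hqm : q ∣ m) {A : Type} [Field A] [Algebra ℚ A] [IsAlgClosure ℚ A]
    {B : ℕ} (hgd : ∀ (E : Type) [Field E] [IsAlgClosed E] [CharZero E], Gd E f q B) {D : ℤ}
    (hD : Squarefree D) {F Ω : Type} [Field F] [Field Ω] [Algebra ℚ F] [Algebra F Ω]
    [Algebra ℚ Ω] [IsScalarTower ℚ F Ω] [IsAlgClosed Ω] [Algebra.IsAlgebraic F Ω]
    (U : Set (ValuationSubring F)) (hU : ∀ O ∈ U, ∀ c : ℚ, algebraMap ℚ F c ∈ O)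
    (G : Pool.Agent.W620.SC.GSection ℚ F Ω U) (x y : F) (hx : Transcendental ℚ x)
    (hxy : (D : F) * y ^ m = aeval x f) : ∃ a, KSys f q A D B ⊤ a := by
  have hac : IsAlgClosed A := IsAlgClosure.isAlgClosed ℚ
  have hch : CharZero A := algebraRat.charZero A
  refine ksys_top hq (hgd A) hD.ne_zero ?_
  refine t_glo f q B hq hqf hn hgd A D hD ℚ F Ω U hU G x (y ^ (m / q)) hx ?_
  rw [← pow_mul, Nat.div_mul_cancel hqm, hxy]

theorem pro_glo {f : ℤ[X]} {q : ℕ} (hq : q.Prime) (hqf : q ∣ f.natDegree)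
    (hn : 3 ≤ f.natDegree) {A : Type} [Field A] [Algebra ℚ A] [IsAlgClosure ℚ A]
    {B : ℕ} (hgd : ∀ (E : Type) [Field E] [IsAlgClosed E] [CharZero E], Gd E f q B) {D : ℤ}
    (hD : Squarefree D) (K : Type) [Field K] [NumberField K] (h : HasPro f q D K) :
    ∃ (N : IntermediateField ℚ A) (M : Type) (_ : Field M) (S : SecH f q A M N.fixingSubgroup),
      FiniteDimensional ℚ N ∧ Module.finrank ℚ N = Module.finrank ℚ K ∧ S.Good D B := by
  have : Fact q.Prime := ⟨hq⟩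
  obtain ⟨F, Ω, _, _, _, _, _, _, _, _, x, y, M, S, hx, hxy, hF, hM, hS, hcompat⟩ := h
  have hac : IsAlgClosed A := IsAlgClosure.isAlgClosed ℚ
  have hch : CharZero A := algebraRat.charZero A
  have hDK : (D : K) ≠ 0 := Int.cast_ne_zero.mpr hD.ne_zero
  have hxy' : algebraMap K F (D : K) * y ^ q = aeval x (f.map (Int.castRingHom K)) := by
    rw [map_intCast, hxy, aeval_def, aeval_def, eval₂_map]
    congr 1
    exact RingHom.ext_int _ _
  have halg := Pool.Agent.Y157.PS.alg_of_eqn hq.pos (f.map (Int.castRingHom K)) (D : K) hDK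
    x y hxy' hF
  obtain ⟨T, hTc, hT⟩ := Pool.Agent.Y157.PS.a_ind2 q K F Ω x hx halg M hM _ S hS
  have hTcompat : ∀ σ (c : algebraicClosure K Ω) (z : geomPro q K F Ω), (z : Ω) = (c : Ω) →
      (T σ z : Ω) = (σ c : Ω) := by
    intro σ c z hz
    have h1 : (z : Ω) ∈ M := hM z.2
    rw [hT σ ⟨(z : Ω), h1⟩ z rfl]
    exact hcompat σ c _ hz
  exact t_glo0 f q B hq hqf hn hgd A D hD K F Ω x y hx hxy hF T hTc hTcompat

theorem pro_ksys {f : ℤ[X]} {q : ℕ} (hq : q.Prime) (hqf : q ∣ f.natDegree)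
    (hn : 3 ≤ f.natDegree) {A : Type} [Field A] [Algebra ℚ A] [IsAlgClosure ℚ A]
    {B : ℕ} (hgd : ∀ (E : Type) [Field E] [IsAlgClosed E] [CharZero E], Gd E f q B) {D : ℤ}
    (hD : Squarefree D) (h : HasPro f q D ℚ) : ∃ a, KSys f q A D B ⊤ a := by
  have hac : IsAlgClosed A := IsAlgClosure.isAlgClosed ℚ
  have hch : CharZero A := algebraRat.charZero A
  exact ksys_top hq (hgd A) hD.ne_zero (pro_glo hq hqf hn hgd hD ℚ h)

/-! ### Points -/

theorem curvePt_of_alg {f : ℤ[X]} {m : ℕ} (hm : 0 < m) {D : ℤ} (hD : D ≠ 0) {F Ω : Type}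
    [Field F] [Field Ω] [Algebra ℚ F] [Algebra F Ω] [Algebra ℚ Ω] [IsScalarTower ℚ F Ω]
    [IsAlgClosed Ω] [Algebra.IsAlgebraic F Ω] (U : Set (ValuationSubring F))
    (G : Pool.Agent.W620.SC.GSection ℚ F Ω U) (x y : F)
    (hxy : (D : F) * y ^ m = aeval x f) (hx : ¬ Transcendental ℚ x) :
    Nonempty (Point f m D ℚ) := by
  have hchF : CharZero F := charZero_of_injective_algebraMap (algebraMap ℚ F).injective
  rw [Transcendental, not_not] at hx
  obtain ⟨x', rfl⟩ := Pool.Agent.W623.SecE.alg_mem_base G x hx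
  have h0 : aeval (algebraMap ℚ F x') f = algebraMap ℚ F (f.eval₂ (Int.castRingHom ℚ) x') := by
    rw [aeval_def, hom_eval₂]
    congr 1
    exact RingHom.ext_int _ _
  have h1 : y ^ m = algebraMap ℚ F ((f.eval₂ (Int.castRingHom ℚ) x') / D) := by
    rw [map_div₀, eq_div_iff ((_root_.map_ne_zero _).2 (Int.cast_ne_zero.mpr hD)), map_intCast,
      ← h0, ← hxy]
    ring
  have hy : IsAlgebraic ℚ y := by
    apply IsAlgebraic.of_pow hm
    rw [h1]
    exact isAlgebraic_algebraMap _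
  obtain ⟨y', rfl⟩ := Pool.Agent.W623.SecE.alg_mem_base G y hy
  refine ⟨⟨x', 1, y', Or.inr one_ne_zero, (algebraMap ℚ F).injective ?_⟩⟩
  rw [map_mul, map_pow, map_intCast, hxy, h0]
  congr 1
  rw [eval₂_eq_sum_range]
  unfold Pool.Agent.Q51.SE.hom
  refine Finset.sum_congr rfl fun i _ => ?_
  rw [one_pow, mul_one]
  rfl

theorem bnd_pts {f : ℤ[X]} (hf : Irreducible (f.map (Int.castRingHom ℚ))) {q m : ℕ}
    (hq : q.Prime) (hq2 : q ≠ 2) (hqm : q ∣ m) (hmn : m ∣ f.natDegree)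
    (hrou : RootsOfUnityCondition f q) : Bnd f (fun D => Nonempty (Point f m D ℚ)) := by
  refine Bnd.mono (Q := fun D => ∃ P : AdelicPoint f m D, Orthogonal q P) ?_
    (Pool.Agent.Q51.SE.t_upq f q m hf hq hq2 hqm hmn hrou)
  rintro D hD ⟨Q⟩
  have hnd : (f.map (Int.castRingHom ℚ)).natDegree = f.natDegree :=
    natDegree_map_eq_of_injective (Int.castRingHom ℚ).injective_int f
  have hnpos : 0 < f.natDegree := by
    rw [← hnd]; exact hf.natDegree_pos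
  have hq3 : 3 ≤ q := by
    have := hq.two_le
    omega
  have hn3 : 3 ≤ f.natDegree := hq3.trans (Nat.le_of_dvd hnpos (hqm.trans hmn))
  exact ⟨Q.adelic, Pool.Agent.Q51.SE.rational_of Pool.Agent.Q51.SE.t_val hf (by omega) hq hqm
    hD.ne_zero Q⟩

/-! ### The prime `2` -/

theorem bnd_sec2 {f : ℤ[X]} (hf : Irreducible (f.map (Int.castRingHom ℚ)))
    (hev : Even f.natDegree) (h6 : 6 ≤ f.natDegree) :
    Bnd f (fun D => Pool.Agent.Q161.SX.HasSec.{0, 0} f D) := by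
  obtain ⟨B0, hB0, hS⟩ := Pool.Agent.Q161.SH.secx.{0, 0} f hf.separable hev (by omega)
  obtain ⟨A, iA, iA', hA⟩ := Pool.Agent.Q161.SX.closure_ex ℚ
  obtain ⟨L, i1, i2, θ, hset⟩ := Pool.Agent.Q251.SX.exists_L f hf
  obtain ⟨B, C, N, T, hB, hC, hTy, hD⟩ := Pool.Agent.Q161.SX.t_ar.{0} f L θ hset (by omega) A B0 hB0
  obtain ⟨c, C1, hc, hcore⟩ := Pool.Agent.Q161.SX.t_core L (by rw [hset.deg]; omega) B hB
  obtain ⟨C3, hC3⟩ := Pool.Agent.Q91.EL.gg f L θ hset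
  refine Bnd.mono (Q := fun D => ∃ (M : Type) (_ : Field M)
    (S : Pool.Agent.Q161.SX.Sec f A M), S.Good D B0) ?_
    (bnd_of f (by omega) L hset.deg C3 hC3 B N C T hB hC _ (fun D hDs h => by
      obtain ⟨M, _, S, h3⟩ := h
      exact hD D M S hDs h3) c C1 hc fun k Y hY => hcore (T k) (hTy k) Y hY)
  rintro D h2 ⟨F, Ω, i1, i2, i3, i4, i5, i6, i7, i8, U, x, y, hU, ⟨G⟩, hxy, hx⟩
  obtain ⟨S', hS'⟩ := hS D h2 F Ω U hU G x y hxy hx
  obtain ⟨e0⟩ := Pool.Agent.Q161.SX.equiv_ex ℚ A Ω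
  obtain ⟨e⟩ := Pool.Agent.Q161.SX.rat_equiv A (algebraicClosure ℚ Ω) e0
  obtain ⟨S, hS⟩ := Pool.Agent.Q16.SX.tra.{0, 0, 0} f A (algebraicClosure ℚ Ω)
    (Pool.Agent.W620.SC.unramified F Ω U) e S' D B0 hS'
  exact ⟨_, inferInstance, S, hS⟩

end Pool.Agent.Q51.SY
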